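import Mathlib

set_option autoImplicit false
open MeasureTheory Polynomial Set Metric Filter Topology

namespace Pool.Agent.Helper83.Berg

theorem ball_pow (δ : ℝ) (n : ℕ) (hn : n ≠ 0) : ∫ w in ball (0 : ℂ) δ, w ^ n = 0 := by
  set a : Circle := Circle.exp (Real.pi / n) with ha
  have han : (a : ℂ) ^ n = -1 := by
    rw [ha, Circle.coe_exp, ← Complex.exp_nat_mul]
    have : (n : ℂ) * (((Real.pi / n : ℝ) : ℂ) * Complex.I) = Real.pi * Complex.I := by
      push_cast
      have : (n : ℂ) ≠ 0 := Nat.cast_ne_zero.2 hn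
      field_simp
    rw [this, Complex.exp_pi_mul_I]
  have h1 := (LinearIsometryEquiv.measurePreserving (rotation a)).setIntegral_preimage_emb
    (rotation a).toHomeomorph.measurableEmbedding (fun w : ℂ => w ^ n) (ball (0 : ℂ) δ)
  have h2 : (rotation a) ⁻¹' (ball (0 : ℂ) δ) = ball 0 δ := by
    ext w
    simp only [mem_preimage, mem_ball_zero_iff, LinearIsometryEquiv.norm_map]
  rw [h2] at h1
  simp only [rotation_apply, mul_pow, han] at h1
  rw [integral_const_mul] at h1
  have h3 : (2 : ℂ) * ∫ w in ball (0 : ℂ) δ, w ^ n = 0 := by linear_combination -h1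
  rcases mul_eq_zero.1 h3 with h4 | h4
  · norm_num at h4
  · exact h4

theorem integrableOn_ball (z : ℂ) (δ : ℝ) {f : ℂ → ℂ} (hf : Continuous f) :
    IntegrableOn f (ball z δ) volume :=
  (hf.continuousOn.integrableOn_compact (isCompact_closedBall z δ)).mono_set ball_subset_closedBall

theorem ball_poly (P : ℂ[X]) (δ : ℝ) (hδ : 0 < δ) :
    ∫ w in ball (0 : ℂ) δ, P.eval w = P.eval 0 * (Real.pi * δ ^ 2) := by
  have h1 : ∀ w : ℂ, P.eval w = ∑ i ∈ Finset.range (P.natDegree + 1), P.coeff i * w ^ i :=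
    fun w => eval_eq_sum_range w
  simp_rw [h1]
  rw [integral_finsetSum _ (fun i _ => integrableOn_ball 0 δ (by fun_prop))]
  rw [Finset.sum_eq_single 0]
  · rw [Finset.sum_eq_single 0]
    · rw [integral_const_mul]
      simp only [pow_zero, integral_const, mul_one]
      rw [Measure.real, Measure.restrict_apply MeasurableSet.univ, univ_inter, Complex.volume_ball]
      rw [ENNReal.toReal_mul, ENNReal.toReal_pow, ENNReal.toReal_ofReal hδ.le]
      simp only [ENNReal.coe_toReal, NNReal.coe_real_pi, Complex.real_smul, mul_one]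
      push_cast
      ring
    · intro i _ hi
      simp [hi]
    · intro h; exact absurd (Finset.mem_range.2 (Nat.succ_pos _)) h
  · intro i _ hi
    rw [integral_const_mul, ball_pow δ i hi, mul_zero]
  · intro h; exact absurd (Finset.mem_range.2 (Nat.succ_pos _)) h

theorem ball_poly' (P : ℂ[X]) (z : ℂ) (δ : ℝ) (hδ : 0 < δ) :
    ∫ w in ball z δ, P.eval w = P.eval z * (Real.pi * δ ^ 2) := by
  have h1 := (measurePreserving_add_left (volume : Measure ℂ) z).setIntegral_preimage_emb
    (Homeomorph.addLeft z).measurableEmbedding (fun w : ℂ => P.eval w) (ball z δ)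
  have h2 : (fun x => z + x) ⁻¹' (ball z δ) = ball 0 δ := by
    ext w
    simp only [mem_preimage, mem_ball, dist_eq_norm, add_sub_cancel_left, sub_zero]
  rw [h2] at h1
  rw [← h1]
  have h3 : ∀ w : ℂ, P.eval (z + w) = (P.comp (C z + X)).eval w := by
    intro w
    rw [eval_comp, eval_add, eval_C, eval_X]
  simp_rw [h3]
  rw [ball_poly _ δ hδ, eval_comp, eval_add, eval_C, eval_X, add_zero]

/-- sub-mean-value bound for `|P|^2` on a disc inside `G` -/
theorem sq_le (P : ℂ[X]) (z : ℂ) (δ : ℝ) (hδ : 0 < δ) (G : Set ℂ) (hG : ball z δ ⊆ G)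
    (hi : IntegrableOn (fun w : ℂ => ‖P.eval w‖ ^ 2) G volume) :
    ‖P.eval z‖ ^ 2 * (Real.pi * δ ^ 2) ≤ ∫ w in G, ‖P.eval w‖ ^ 2 := by
  have h1 := ball_poly' (P ^ 2) z δ hδ
  have h2 : ‖P.eval z‖ ^ 2 * (Real.pi * δ ^ 2) = ‖∫ w in ball z δ, (P ^ 2).eval w‖ := by
    rw [h1, norm_mul, eval_pow, norm_pow]
    congr 1
    rw [norm_mul, norm_pow, Complex.norm_real, Complex.norm_real, Real.norm_eq_abs,
      Real.norm_eq_abs, abs_of_pos Real.pi_pos, abs_of_pos hδ]
  rw [h2]
  refine (norm_integral_le_integral_norm _).trans ?_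
  simp only [eval_pow, norm_pow]
  exact setIntegral_mono_set hi (Filter.Eventually.of_forall (fun w => by positivity))
    (LE.le.eventuallyLE hG)

end Pool.Agent.Helper83.Berg
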