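import Mathlib

set_option autoImplicit false
open MeasureTheory Polynomial Set Metric Filter Topology

namespace Pool.Agent.Helper83.Berg

/-- a compact convex body between two discs centred at `0` -/
structure Body (K : Set ℂ) (ρ0 : ℝ) : Prop where
  comp : IsCompact K
  conv : Convex ℝ K
  pos : 0 < ρ0
  inn : Metric.ball 0 ρ0 ⊆ K
  out : K ⊆ Metric.closedBall 0 1

/-- the exterior of `K` in the coordinate `ζ = 1/z` -/
def UK (K : Set ℂ) : Set ℂ := {ζ | ζ = 0 ∨ ζ⁻¹ ∉ K}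

/-- the exterior of the `δ`-neighbourhood of `K` in the coordinate `ζ = 1/z` -/
def VK (K : Set ℂ) (δ : ℝ) : Set ℂ := {ζ | ζ = 0 ∨ δ < Metric.infDist ζ⁻¹ K}

variable {K : Set ℂ} {ρ0 : ℝ}

theorem Body.zero_mem (h : Body K ρ0) : (0 : ℂ) ∈ K := h.inn (mem_ball_self h.pos)

theorem Body.ne (h : Body K ρ0) : K.Nonempty := ⟨0, h.zero_mem⟩

theorem infDist_ge (h : Body K ρ0) (z : ℂ) : ‖z‖ - 1 ≤ infDist z K := by
  rw [le_infDist h.ne]
  intro y hy
  have h1 := h.out hy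
  rw [mem_closedBall_zero_iff] at h1
  rw [dist_eq_norm]
  have := norm_sub_norm_le z y
  linarith

theorem VK_open (h : Body K ρ0) (δ : ℝ) (hδ : 0 ≤ δ) : IsOpen (VK K δ) := by
  rw [isOpen_iff_mem_nhds]
  intro ζ hζ
  by_cases h0 : ζ = 0
  · subst h0
    have hb : Metric.ball (0 : ℂ) (δ + 1)⁻¹ ∈ 𝓝 (0 : ℂ) := Metric.ball_mem_nhds _ (by positivity)
    filter_upwards [hb] with x hx
    by_cases hx0 : x = 0
    · exact Or.inl hx0
    · right
      rw [mem_ball_zero_iff] at hx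
      have h1 : δ + 1 < ‖x⁻¹‖ := by
        rw [norm_inv]
        rwa [lt_inv_comm₀ (by positivity) (norm_pos_iff.2 hx0)]
      have := infDist_ge h x⁻¹
      linarith
  · rcases hζ with h1 | h1
    · exact absurd h1 h0
    · have hc : ContinuousAt (fun x : ℂ => infDist x⁻¹ K) ζ :=
        (continuous_infDist_pt K).continuousAt.comp (continuousAt_inv₀ h0)
      filter_upwards [hc.eventually (lt_mem_nhds h1)] with x hx
      exact Or.inr hx

theorem VK_zero (h : Body K ρ0) : VK K 0 = UK K := by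
  ext ζ
  unfold VK UK
  simp only [mem_ofPred_eq]
  rw [← h.comp.isClosed.notMem_iff_infDist_pos h.ne]

theorem UK_open (h : Body K ρ0) : IsOpen (UK K) := by
  rw [← VK_zero h]; exact VK_open h 0 le_rfl

theorem UK_bdd (h : Body K ρ0) {ζ : ℂ} (hζ : ζ ∈ UK K) : ‖ζ‖ ≤ ρ0⁻¹ := by
  rcases hζ with h1 | h1
  · rw [h1]; simp; exact h.pos.le
  · by_cases h0 : ζ = 0
    · rw [h0]; simp; exact h.pos.le
    · have h2 : ρ0 ≤ ‖ζ⁻¹‖ := by
        by_contra hc
        push Not at hc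
        exact h1 (h.inn (mem_ball_zero_iff.2 hc))
      rw [norm_inv] at h2
      rwa [le_inv_comm₀ h.pos (norm_pos_iff.2 h0)] at h2

theorem ball_sub_UK (h : Body K ρ0) : Metric.ball (0 : ℂ) 1 ⊆ UK K := by
  intro ζ hζ
  by_cases h0 : ζ = 0
  · exact Or.inl h0
  · right
    intro hK
    have h1 := h.out hK
    rw [mem_closedBall_zero_iff, norm_inv] at h1
    rw [mem_ball_zero_iff] at hζ
    have h2 : 1 < ‖ζ‖⁻¹ := (one_lt_inv₀ (norm_pos_iff.2 h0)).2 hζ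
    linarith

theorem VK_sub (h : Body K ρ0) {δ : ℝ} (hδ : 0 ≤ δ) : VK K δ ⊆ UK K := by
  rw [← VK_zero h]
  rintro ζ (h1 | h1)
  · exact Or.inl h1
  · exact Or.inr (lt_of_le_of_lt hδ h1)

theorem closure_VK {δ : ℝ} {ζ : ℂ} (hζ : ζ ∈ closure (VK K δ)) (h0 : ζ ≠ 0) :
    δ ≤ infDist ζ⁻¹ K := by
  by_contra hc
  push Not at hc
  have hcont : ContinuousAt (fun x : ℂ => infDist x⁻¹ K) ζ :=
    (continuous_infDist_pt K).continuousAt.comp (continuousAt_inv₀ h0)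
  have h1 : {x : ℂ | infDist x⁻¹ K < δ} ∩ {x | x ≠ 0} ∈ 𝓝 ζ :=
    Filter.inter_mem (hcont.eventually (gt_mem_nhds hc)) (isOpen_ne.mem_nhds h0)
  obtain ⟨x, ⟨hx1, hx2⟩, hx3⟩ := mem_closure_iff_nhds.1 hζ _ h1
  rcases hx3 with hx3 | hx3
  · exact hx2 hx3
  · exact lt_irrefl _ (lt_trans hx1 hx3)

/-- **Bernstein-Walsh** in the coordinate `ζ = 1/z`. -/
theorem bw (h : Body K ρ0) {ψ : ℂ → ℂ} (hψ : DifferentiableOn ℂ ψ (UK K))
    (hψ1 : ∀ ζ ∈ UK K, ‖ψ ζ‖ < 1) (hψ0 : ψ 0 = 0) (P : ℂ[X]) (m : ℕ) (R : ℂ → ℂ)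
    (hR : Differentiable ℂ R) (hRP : ∀ ζ : ℂ, ζ ≠ 0 → R ζ = ζ ^ m * P.eval ζ⁻¹) (M : ℝ)
    (hM : ∀ z ∈ K, ‖P.eval z‖ ≤ M) (ζ : ℂ) (hζ : ζ ∈ UK K) :
    ‖R ζ * (dslope ψ 0 ζ) ^ m‖ ≤ M := by
  apply le_of_forall_pos_le_add
  intro ε hε
  have hopen : IsOpen {z : ℂ | ‖P.eval z‖ < M + ε} :=
    isOpen_lt (P.continuous.norm) continuous_const
  obtain ⟨δ, hδ, hδs⟩ := h.comp.exists_cthickening_subset_open hopen
    (fun z hz => lt_of_le_of_lt (hM z hz) (by linarith))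
  obtain ⟨δ', hδ', hle, hmem⟩ : ∃ δ' : ℝ, 0 < δ' ∧ δ' ≤ δ ∧ ζ ∈ VK K δ' := by
    by_cases h0 : ζ = 0
    · exact ⟨δ, hδ, le_rfl, Or.inl h0⟩
    · have h1 : 0 < infDist ζ⁻¹ K := by
        rcases hζ with h2 | h2
        · exact absurd h2 h0
        · exact (h.comp.isClosed.notMem_iff_infDist_pos h.ne).1 h2
      refine ⟨min δ (infDist ζ⁻¹ K / 2), lt_min hδ (by linarith), min_le_left _ _, Or.inr ?_⟩
      exact lt_of_le_of_lt (min_le_right _ _) (by linarith)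
  set V := VK K δ' with hV
  have hVo : IsOpen V := VK_open h δ' hδ'.le
  have hVb : Bornology.IsBounded V := by
    rw [isBounded_iff_subset_closedBall 0]
    exact ⟨ρ0⁻¹, fun x hx => mem_closedBall_zero_iff.2 (UK_bdd h (VK_sub h hδ'.le hx))⟩
  have hcl : closure V ⊆ UK K := by
    intro x hx
    by_cases h0 : x = 0
    · exact Or.inl h0
    · right
      rw [h.comp.isClosed.notMem_iff_infDist_pos h.ne]
      exact lt_of_lt_of_le hδ' (closure_VK hx h0)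
  have hds : DifferentiableOn ℂ (dslope ψ 0) (UK K) := by
    rw [Complex.differentiableOn_dslope ((UK_open h).mem_nhds (Or.inl rfl))]
    exact hψ
  have hdiff : DifferentiableOn ℂ (fun x => R x * (dslope ψ 0 x) ^ m) (UK K) :=
    hR.differentiableOn.mul (hds.pow m)
  refine Complex.norm_le_of_forall_mem_frontier_norm_le hVb
    (hdiff.mono hcl).diffContOnCl ?_ (subset_closure hmem)
  intro x hx
  have hx1 : x ∈ closure V := frontier_subset_closure hx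
  have hx2 : x ∉ V := by
    have : x ∈ closure V \ V := by rwa [hVo.frontier_eq] at hx
    exact this.2
  have hx0 : x ≠ 0 := fun h0 => hx2 (Or.inl h0)
  have hx3 : infDist x⁻¹ K ≤ δ' := by
    by_contra hc
    push Not at hc
    exact hx2 (Or.inr hc)
  obtain ⟨y, hy, hyd⟩ := h.comp.exists_infDist_eq_dist h.ne x⁻¹
  have hx4 : x⁻¹ ∈ cthickening δ K := by
    apply mem_cthickening_of_dist_le _ y _ _ hy
    rw [← hyd]; exact hx3.trans hle
  have hx5 : ‖P.eval x⁻¹‖ < M + ε := hδs hx4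
  have hx6 : ‖ψ x‖ < 1 := hψ1 x (hcl hx1)
  rw [hRP x hx0, dslope_of_ne _ hx0, slope_def_field, hψ0, sub_zero, sub_zero]
  have e : x ^ m * eval x⁻¹ P * (ψ x / x) ^ m = eval x⁻¹ P * ψ x ^ m := by
    rw [div_pow]
    field_simp
  rw [e, norm_mul, norm_pow]
  calc ‖eval x⁻¹ P‖ * ‖ψ x‖ ^ m ≤ ‖eval x⁻¹ P‖ * 1 := by
        gcongr
        exact pow_le_one₀ (norm_nonneg _) hx6.le
    _ ≤ M + ε := by rw [mul_one]; exact hx5.le

end Pool.Agent.Helper83.Berg
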