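import Pool.Agent.Helper83.Berg.Ext

set_option autoImplicit false
open MeasureTheory Polynomial Set Metric Filter Topology

namespace Pool.Agent.Helper83.Berg

variable {K : Set ℂ} {ρ0 : ℝ}

theorem one_sub_ne {z w : ℂ} (hz : z ∈ K) (hw : w ∈ UK K) : 1 - z * w ≠ 0 := by
  intro h
  have h1 : z * w = 1 := (sub_eq_zero.1 h).symm
  have hw0 : w ≠ 0 := by rintro rfl; simp at h1
  rcases hw with h2 | h2
  · exact hw0 h2
  · apply h2
    rw [← eq_inv_of_mul_eq_one_left h1]
    exact hz

/-- monic polynomials with small sup norm on `K` (Faber polynomials) -/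
theorem faber (h : Body K ρ0) {F : ℂ → ℂ} (hF : DifferentiableOn ℂ F (ball 0 1))
    (hFm : ∀ w ∈ ball (0 : ℂ) 1, F w ∈ UK K) (hF0 : F 0 = 0) (hd : deriv F 0 ≠ 0) (ρ : ℝ)
    (hρ : 0 < ρ) (hρ1 : ρ < 1) :
    ∃ C : ℝ, 0 < C ∧ ∀ m : ℕ, ∃ Q : ℂ[X], Q.Monic ∧ Q.natDegree = m ∧
      ∀ z ∈ K, ‖Q.eval z‖ ≤ C * (‖deriv F 0‖⁻¹ * ρ⁻¹) ^ m := by
  have hsub : closedBall (0 : ℂ) ρ ⊆ ball 0 1 := closedBall_subset_ball hρ1
  have hsph : sphere (0 : ℂ) ρ ⊆ closedBall 0 ρ := sphere_subset_closedBall
  have hh : DifferentiableOn ℂ (dslope F 0) (ball 0 1) := by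
    rw [Complex.differentiableOn_dslope (ball_mem_nhds _ one_pos)]
    exact hF
  have hFh : ∀ w : ℂ, w ≠ 0 → F w = w * dslope F 0 w := by
    intro w hw
    rw [dslope_of_ne _ hw, slope_def_field, hF0, sub_zero, sub_zero]
    field_simp
  have hne : ∀ z ∈ K, ∀ w ∈ ball (0 : ℂ) 1, 1 - z * F w ≠ 0 := fun z hz w hw =>
    one_sub_ne hz (hFm w hw)
  have hs0 : ∀ w ∈ sphere (0 : ℂ) ρ, w ≠ 0 := by
    rintro w hw rfl
    rw [mem_sphere_zero_iff_norm, norm_zero] at hw
    exact hρ.ne hw
  obtain ⟨B, hB⟩ : ∃ B : ℝ, ∀ x ∈ K ×ˢ sphere (0 : ℂ) ρ, ‖(1 - x.1 * F x.2)⁻¹‖ ≤ B := by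
    apply (h.comp.prod (isCompact_sphere (0 : ℂ) ρ)).exists_bound_of_continuousOn
    apply ContinuousOn.inv₀
    · apply continuousOn_const.sub
      apply continuousOn_fst.mul
      apply hF.continuousOn.comp continuousOn_snd
      intro x hx
      exact hsub (hsph hx.2)
    · intro x hx
      exact hne _ hx.1 _ (hsub (hsph hx.2))
  have hB' : ∀ z ∈ K, ∀ w ∈ sphere (0 : ℂ) ρ, ‖(1 - z * F w)⁻¹‖ ≤ max B 1 := fun z hz w hw =>
    (hB (z, w) ⟨hz, hw⟩).trans (le_max_left _ _)
  refine ⟨max B 1, lt_of_lt_of_le one_pos (le_max_right _ _), fun m => ?_⟩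
  set A : ℕ → ℂ := fun l => (2 * Real.pi * Complex.I : ℂ)⁻¹ •
    ∮ w in C(0, ρ), F w ^ l / w ^ (m + 1) with hA
  have hint : ∀ l, CircleIntegrable (fun w => F w ^ l / w ^ (m + 1)) 0 ρ := by
    intro l
    apply ContinuousOn.circleIntegrable hρ.le
    apply ContinuousOn.div
    · exact (hF.continuousOn.mono (hsph.trans hsub)).pow l
    · exact (continuous_pow (m + 1)).continuousOn
    · intro w hw
      exact pow_ne_zero _ (hs0 w hw)
  have hAm : A m = (deriv F 0) ^ m := by
    have h1 : (∮ w in C(0, ρ), F w ^ m / w ^ (m + 1)) =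
        ∮ w in C(0, ρ), (w - 0)⁻¹ • (dslope F 0 w) ^ m := by
      apply circleIntegral.integral_congr hρ.le
      intro w hw
      have hw0 := hs0 w hw
      simp only [sub_zero, smul_eq_mul]
      rw [hFh w hw0, mul_pow, pow_succ]
      field_simp
    rw [hA]
    simp only
    have hdm : DifferentiableOn ℂ (fun w => (dslope F 0 w) ^ m) (closedBall 0 ρ) :=
      (hh.mono hsub).pow m
    rw [h1, hdm.circleIntegral_sub_inv_smul (mem_ball_self hρ), dslope_same, inv_smul_smul₀]
    simp [Real.pi_ne_zero]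
  set a := deriv F 0 with ha
  set Q : ℂ[X] := C (a ^ m)⁻¹ * ∑ l ∈ Finset.range (m + 1), C (A l) * X ^ l with hQ
  have hcoeff : Q.coeff m = 1 := by
    rw [hQ, coeff_C_mul, finsetSum_coeff]
    simp only [coeff_C_mul, coeff_X_pow, mul_ite, mul_one, mul_zero]
    rw [Finset.sum_ite_eq, if_pos (Finset.mem_range.2 (Nat.lt_succ_self m)), hAm]
    exact inv_mul_cancel₀ (pow_ne_zero _ hd)
  have hdeg : Q.natDegree ≤ m := by
    rw [natDegree_le_iff_coeff_eq_zero]
    intro n hn
    rw [hQ, coeff_C_mul, finsetSum_coeff]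
    simp only [coeff_C_mul, coeff_X_pow, mul_ite, mul_one, mul_zero]
    rw [Finset.sum_ite_eq, if_neg (by rw [Finset.mem_range]; omega)]
    simp
  refine ⟨Q, monic_of_natDegree_le_of_coeff_eq_one m hdeg hcoeff, ?_, ?_⟩
  · apply le_antisymm hdeg
    apply le_natDegree_of_ne_zero
    rw [hcoeff]; exact one_ne_zero
  · intro z hz
    have hev : Q.eval z = (a ^ m)⁻¹ * ∑ l ∈ Finset.range (m + 1), A l * z ^ l := by
      rw [hQ, eval_mul, eval_C, eval_finsetSum]
      simp
    have hsum : ∑ l ∈ Finset.range (m + 1), A l * z ^ l =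
        (2 * Real.pi * Complex.I : ℂ)⁻¹ • ∮ w in C(0, ρ), (1 - z * F w)⁻¹ / w ^ (m + 1) := by
      have h1 : ∑ l ∈ Finset.range (m + 1), A l * z ^ l =
          (2 * Real.pi * Complex.I : ℂ)⁻¹ • ∮ w in C(0, ρ),
            ∑ l ∈ Finset.range (m + 1), z ^ l * (F w ^ l / w ^ (m + 1)) := by
        rw [circleIntegral.integral_fun_sum, Finset.smul_sum]
        · apply Finset.sum_congr rfl
          intro l _
          rw [circleIntegral.integral_const_mul, hA]
          simp only [smul_eq_mul]
          ring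
        · intro l _
          apply ContinuousOn.circleIntegrable hρ.le
          apply continuousOn_const.mul
          apply ContinuousOn.div
          · exact (hF.continuousOn.mono (hsph.trans hsub)).pow l
          · exact (continuous_pow (m + 1)).continuousOn
          · intro w hw
            exact pow_ne_zero _ (hs0 w hw)
      rw [h1]
      congr 1
      have h2 : (∮ w in C(0, ρ), ∑ l ∈ Finset.range (m + 1), z ^ l * (F w ^ l / w ^ (m + 1))) =
          ∮ w in C(0, ρ), ((1 - z * F w)⁻¹ / w ^ (m + 1) -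
            z ^ (m + 1) * (dslope F 0 w) ^ (m + 1) * (1 - z * F w)⁻¹) := by
        apply circleIntegral.integral_congr hρ.le
        intro w hw
        have hw0 := hs0 w hw
        have hn := hne z hz w (hsub (hsph hw))
        simp only
        have e1 : ∑ l ∈ Finset.range (m + 1), z ^ l * (F w ^ l / w ^ (m + 1)) =
            (∑ l ∈ Finset.range (m + 1), (z * F w) ^ l) / w ^ (m + 1) := by
          rw [Finset.sum_div]
          apply Finset.sum_congr rfl
          intro l _
          rw [mul_pow]; ring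
        have e2 : (∑ l ∈ Finset.range (m + 1), (z * F w) ^ l) * (1 - z * F w) =
            1 - (z * F w) ^ (m + 1) := geom_sum_mul_neg _ _
        have e3 : F w ^ (m + 1) = w ^ (m + 1) * (dslope F 0 w) ^ (m + 1) := by
          rw [hFh w hw0, mul_pow]
        rw [e1]
        have e4 : (∑ l ∈ Finset.range (m + 1), (z * F w) ^ l) =
            (1 - z ^ (m + 1) * (w ^ (m + 1) * (dslope F 0 w) ^ (m + 1))) * (1 - z * F w)⁻¹ := by
          rw [eq_mul_inv_iff_mul_eq₀ hn, e2, mul_pow, e3]
        rw [e4]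
        have hwp : w ^ (m + 1) ≠ 0 := pow_ne_zero _ hw0
        field_simp
      rw [h2, circleIntegral.integral_sub]
      · have h3 : (∮ w in C(0, ρ), z ^ (m + 1) * (dslope F 0 w) ^ (m + 1) * (1 - z * F w)⁻¹)
            = 0 := by
          apply DiffContOnCl.circleIntegral_eq_zero hρ.le
          apply DifferentiableOn.diffContOnCl
          rw [closure_ball _ hρ.ne']
          apply DifferentiableOn.mul
          · exact (differentiableOn_const _).mul ((hh.mono hsub).pow _)
          · apply DifferentiableOn.inv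
            · exact (differentiableOn_const _).sub ((differentiableOn_const _).mul (hF.mono hsub))
            · intro w hw
              exact hne z hz w (hsub hw)
        rw [h3, sub_zero]
      · apply ContinuousOn.circleIntegrable hρ.le
        apply ContinuousOn.div
        · apply ContinuousOn.inv₀
          · exact continuousOn_const.sub (continuousOn_const.mul
              (hF.continuousOn.mono (hsph.trans hsub)))
          · intro w hw
            exact hne z hz w (hsub (hsph hw))
        · exact (continuous_pow (m + 1)).continuousOn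
        · intro w hw
          exact pow_ne_zero _ (hs0 w hw)
      · apply ContinuousOn.circleIntegrable hρ.le
        apply ContinuousOn.mul
        · exact continuousOn_const.mul ((hh.continuousOn.mono (hsph.trans hsub)).pow _)
        · apply ContinuousOn.inv₀
          · exact continuousOn_const.sub (continuousOn_const.mul
              (hF.continuousOn.mono (hsph.trans hsub)))
          · intro w hw
            exact hne z hz w (hsub (hsph hw))
    rw [hev, hsum, norm_mul, norm_inv, norm_pow]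
    have hb : ‖(2 * Real.pi * Complex.I : ℂ)⁻¹ •
        ∮ w in C(0, ρ), (1 - z * F w)⁻¹ / w ^ (m + 1)‖ ≤ ρ * (max B 1 / ρ ^ (m + 1)) := by
      apply circleIntegral.norm_two_pi_i_inv_smul_integral_le_of_norm_le_const hρ.le
      intro w hw
      rw [norm_div, norm_pow, mem_sphere_zero_iff_norm.1 hw]
      gcongr
      exact hB' z hz w hw
    have hapos : 0 < ‖a‖ := norm_pos_iff.2 hd
    calc (‖a‖ ^ m)⁻¹ * ‖(2 * Real.pi * Complex.I : ℂ)⁻¹ •
        ∮ w in C(0, ρ), (1 - z * F w)⁻¹ / w ^ (m + 1)‖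
        ≤ (‖a‖ ^ m)⁻¹ * (ρ * (max B 1 / ρ ^ (m + 1))) := by gcongr
      _ = max B 1 * (‖a‖⁻¹ * ρ⁻¹) ^ m := by
          rw [mul_pow, inv_pow, inv_pow]
          field_simp
          ring

end Pool.Agent.Helper83.Berg
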