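import Pool.Agent.Helper83.Berg.Lim

set_option autoImplicit false
open MeasureTheory Polynomial Set Metric Filter Topology
open Pool.Agent.H92Berg

namespace Pool.Agent.Helper83.Berg

theorem pot {N : ℕ} (μ : Measure I01) [IsProbabilityMeasure μ] (hN : 0 < N) {z : ℂ}
    (hz : 1 < ‖z‖) :
    ∫ x : I01, Real.log ‖z ^ N - ((x : ℝ) : ℂ)‖ ∂μ = N * Real.log ‖z‖ + Uc μ (z⁻¹ ^ N) := by
  have hz0 : z ≠ 0 := by
    rintro rfl
    rw [norm_zero] at hz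
    linarith
  have hs : ‖z⁻¹ ^ N‖ < 1 := by
    rw [norm_pow, norm_inv]
    exact pow_lt_one₀ (by positivity) (inv_lt_one_of_one_lt₀ hz) hN.ne'
  have h1 : ∀ x : I01, Real.log ‖z ^ N - ((x : ℝ) : ℂ)‖ =
      N * Real.log ‖z‖ + Real.log ‖1 - ((x : ℝ) : ℂ) * z⁻¹ ^ N‖ := by
    intro x
    have h2 : z ^ N - ((x : ℝ) : ℂ) = z ^ N * (1 - ((x : ℝ) : ℂ) * z⁻¹ ^ N) := by
      rw [mul_sub, mul_one, inv_pow]
      have : z ^ N ≠ 0 := pow_ne_zero _ hz0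
      field_simp
    rw [h2, norm_mul, norm_pow, Real.log_mul, Real.log_pow]
    · exact pow_ne_zero _ (norm_ne_zero_iff.2 hz0)
    · exact norm_ne_zero_iff.2 (Complex.slitPlane_ne_zero (slit x hs))
  simp_rw [h1]
  rw [integral_add (integrable_const _) (int_of_cont μ (cont_rlog hs))]
  simp [Uc]

theorem pot_iff {N : ℕ} (hN : 0 < N) {φ ψ : ℂ → ℂ} {c : ℝ}
    (hψn : ∀ ζ, ζ ≠ 0 → ψ ζ = (φ ζ⁻¹)⁻¹) (hψ0 : ψ 0 = 0) (hφ : ∀ z, 1 < ‖z‖ → φ z ≠ 0)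
    (μ : Measure I01) [IsProbabilityMeasure μ] :
    (∀ z : ℂ, 1 < ‖z‖ → ∫ x : I01, Real.log ‖z ^ N - ((x : ℝ) : ℂ)‖ ∂μ =
      N * Real.log ‖φ z‖ + N * Real.log c) ↔
    ∀ ζ ∈ ball (0 : ℂ) 1, ζ ≠ 0 → Uc μ (ζ ^ N) = N * (Real.log c - Real.log ‖dslope ψ 0 ζ‖) := by
  have hd : ∀ ζ : ℂ, ζ ≠ 0 → 1 < ‖ζ⁻¹‖ →
      Real.log ‖dslope ψ 0 ζ‖ = -Real.log ‖φ ζ⁻¹‖ + Real.log ‖ζ⁻¹‖ := by
    intro ζ hζ h1
    rw [dslope_of_ne _ hζ, slope_def_field, hψ0, sub_zero, sub_zero, hψn ζ hζ, div_eq_mul_inv,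
      norm_mul, Real.log_mul, norm_inv, Real.log_inv]
    · exact norm_ne_zero_iff.2 (inv_ne_zero (hφ _ h1))
    · exact norm_ne_zero_iff.2 (inv_ne_zero hζ)
  constructor
  · intro h ζ hζ hζ0
    have h1 : 1 < ‖ζ⁻¹‖ := by
      rw [norm_inv]
      exact (one_lt_inv₀ (norm_pos_iff.2 hζ0)).2 (mem_ball_zero_iff.1 hζ)
    have h2 := h ζ⁻¹ h1
    rw [pot μ hN h1, inv_inv] at h2
    rw [hd ζ hζ0 h1]
    linarith
  · intro h z hz
    have hz0 : z ≠ 0 := by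
      rintro rfl
      rw [norm_zero] at hz
      linarith
    have h1 : z⁻¹ ∈ ball (0 : ℂ) 1 := by
      rw [mem_ball_zero_iff, norm_inv]
      exact inv_lt_one_of_one_lt₀ hz
    have h2 := h z⁻¹ h1 (inv_ne_zero hz0)
    rw [hd z⁻¹ (inv_ne_zero hz0) (by rwa [inv_inv]), inv_inv] at h2
    rw [pot μ hN hz]
    linarith

theorem pot_unique {N : ℕ} (hN : 0 < N) {g : ℂ → ℝ} (μ μ' : Measure I01)
    [IsProbabilityMeasure μ] [IsProbabilityMeasure μ']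
    (h : ∀ ζ ∈ ball (0 : ℂ) 1, ζ ≠ 0 → Uc μ (ζ ^ N) = g ζ)
    (h' : ∀ ζ ∈ ball (0 : ℂ) 1, ζ ≠ 0 → Uc μ' (ζ ^ N) = g ζ) : μ = μ' := by
  apply ext_of_Uc
  intro t ht
  by_cases h0 : t = 0
  · subst h0
    rw [Complex.ofReal_zero, Uc_zero, Uc_zero]
  · obtain ⟨ζ, hζ⟩ := IsAlgClosed.exists_pow_nat_eq (t : ℂ) hN
    have hζ0 : ζ ≠ 0 := by
      rintro rfl
      rw [zero_pow hN.ne'] at hζ
      exact h0 (Complex.ofReal_eq_zero.1 hζ.symm)
    have hζ1 : ζ ∈ ball (0 : ℂ) 1 := by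
      rw [mem_ball_zero_iff]
      by_contra hc
      push Not at hc
      have h1 : 1 ≤ ‖ζ‖ ^ N := one_le_pow₀ hc
      rw [← norm_pow, hζ, Complex.norm_real, Real.norm_eq_abs] at h1
      linarith
    rw [← hζ, h ζ hζ1 hζ0, h' ζ hζ1 hζ0]

/-- Question Q2 in full. -/
theorem main (N : ℕ) (hN : N = 3 ∨ N = 4) (φ : ℂ → ℂ) (c : ℝ) (he : IsExt (KN N) φ c) :
    ∃ μ : ProbabilityMeasure I01,
      (∀ μ' : ProbabilityMeasure I01, (∀ z : ℂ, 1 < ‖z‖ →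
        ∫ x : I01, Real.log ‖z ^ N - ((x : ℝ) : ℂ)‖ ∂(μ' : Measure I01) =
          N * Real.log ‖φ z‖ + N * Real.log c) ↔ μ' = μ) ∧
      ∀ p : ℕ → ℂ[X], IsBergmanOP N p → ∀ k < N, ∃ q : ℕ → ℝ[X],
        (∀ j, p (j * N + k) = X ^ k * ((q j).map (algebraMap ℝ ℂ)).comp (X ^ N) ∧
          (q j).natDegree = j ∧ Multiset.card (q j).roots = j ∧
          ∀ x ∈ (q j).roots, 0 < x ∧ x < 1) ∧
        ∀ f : ℝ → ℝ, Continuous f →
          Tendsto (fun j : ℕ => ((q j).roots.map f).sum / (j : ℝ)) atTop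
            (𝓝 (∫ x : I01, f x ∂(μ : Measure I01))) := by
  have hb := body N hN
  have hN0 : 0 < N := by omega
  obtain ⟨ψ, F, hψ, hψ1, hψ0, hψd, hψn, hF, hFm, hF0, hFd⟩ := he.toDisc hb
  have hout : ∀ z : ℂ, 1 < ‖z‖ → z ∈ (KN N)ᶜ := by
    intro z hz hK
    have := mem_closedBall_zero_iff.1 (hb.out hK)
    linarith
  have hφ : ∀ z : ℂ, 1 < ‖z‖ → φ z ≠ 0 := by
    intro z hz h0
    have h1 : 1 < ‖φ z‖ := he.bij.mapsTo (hout z hz)
    rw [h0, norm_zero] at h1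
    linarith
  set d : ℂ → ℂ := dslope ψ 0 with hd
  have hdd : DifferentiableOn ℂ d (ball 0 1) := by
    rw [hd, Complex.differentiableOn_dslope (ball_mem_nhds _ one_pos)]
    exact hψ.mono (ball_sub_UK hb)
  have hd0 : d 0 = c := by rw [hd, dslope_same, hψd]
  have hdne : ∀ ζ ∈ ball (0 : ℂ) 1, d ζ ≠ 0 := by
    intro ζ hζ
    by_cases h0 : ζ = 0
    · rw [h0, hd0]; exact Complex.ofReal_ne_zero.2 he.pos.ne'
    · rw [hd, dslope_of_ne _ h0, slope_def_field, hψ0, sub_zero, sub_zero, hψn ζ h0]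
      apply div_ne_zero _ h0
      apply inv_ne_zero
      apply hφ
      rw [norm_inv]
      exact (one_lt_inv₀ (norm_pos_iff.2 h0)).2 (mem_ball_zero_iff.1 hζ)
  obtain ⟨⟨p0, hp0, -⟩, hlib⟩ := Pool.Agent.H92Berg.final N hN
  -- every limit point satisfies the potential identity
  have lim_id : ∀ p : ℕ → ℂ[X], IsBergmanOP N p → ∀ (k : ℕ) (q : ℕ → ℝ[X]) (t : ℕ → ℕ → ℝ),
      (∀ j, p (j * N + k) = X ^ k * ((q j).map (algebraMap ℝ ℂ)).comp (X ^ N) ∧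
        (q j).natDegree = j ∧ (q j).roots = (Multiset.range j).map (t j)) →
      ∀ (x : ℕ → ℕ → I01), (∀ j ν, ν < j → ((x j ν : I01) : ℝ) = t j ν) →
      ∀ (l : Filter ℕ) [l.NeBot], l ≤ atTop → ∀ σ : ProbabilityMeasure I01,
      Tendsto (empP x) l (𝓝 σ) →
      ∀ ζ ∈ ball (0 : ℂ) 1, Uc (σ : Measure I01) (ζ ^ N) =
        N * (Real.log c - Real.log ‖d ζ‖) := by
    intro p hp k q t hq x hx l _ hl σ hσ
    apply limit_eq hN0 (σ : Measure I01) he.pos hdd hdne hd0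
    intro ζ hζ
    refine limit_le (k := k) hl hσ he.pos hN0 hdd.continuousOn hdne ?_ hζ
    intro r hr0 hr1
    obtain ⟨A, hA, hAb⟩ := prod_bound hN he.pos hψ hψ1 hψ0 hF hFm hF0 hFd p hp k q t hq r hr0 hr1
      r hr0 hr1
    refine ⟨A, hA, fun j ζ hζ => ?_⟩
    have h1 := hAb j ζ hζ
    have h2 : ∏ ν ∈ Finset.range j, ‖1 - ((x j ν : ℝ) : ℂ) * ζ ^ N‖ =
        ∏ ν ∈ Finset.range j, ‖1 - (t j ν : ℂ) * ζ ^ N‖ := by
      apply Finset.prod_congr rfl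
      intro ν hν
      rw [hx j ν (Finset.mem_range.1 hν)]
    rw [h2]
    exact h1
  have hproj : ∀ t : ℕ → ℕ → ℝ, (∀ j ν, ν < j → 0 < t j ν ∧ t j ν < 1) →
      ∀ j ν, ν < j → ((Set.projIcc (0 : ℝ) 1 zero_le_one (t j ν) : I01) : ℝ) = t j ν := by
    intro t ht j ν hν
    rw [Set.projIcc_of_mem zero_le_one ⟨(ht j ν hν).1.le, (ht j ν hν).2.le⟩]
  -- a limit measure exists
  obtain ⟨μ, hμ⟩ : ∃ μ : ProbabilityMeasure I01, ∀ ζ ∈ ball (0 : ℂ) 1,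
      Uc (μ : Measure I01) (ζ ^ N) = N * (Real.log c - Real.log ‖d ζ‖) := by
    obtain ⟨q, t, hq, ht, -⟩ := hlib p0 hp0 0 hN0
    set x : ℕ → ℕ → I01 := fun j ν => Set.projIcc (0 : ℝ) 1 zero_le_one (t j ν) with hx
    obtain ⟨l, hl⟩ : ∃ l : Ultrafilter ℕ, (l : Filter ℕ) ≤ atTop := Ultrafilter.exists_le atTop
    obtain ⟨μ, -, hμ⟩ := isCompact_univ.ultrafilter_le_nhds (l.map (empP x)) (by simp)
    exact ⟨μ, lim_id p0 hp0 0 q t hq x (fun j ν hν => hproj t ht j ν hν) l hl μ hμ⟩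
  have huniq : ∀ μ' : ProbabilityMeasure I01, (∀ ζ ∈ ball (0 : ℂ) 1, ζ ≠ 0 →
      Uc (μ' : Measure I01) (ζ ^ N) = N * (Real.log c - Real.log ‖d ζ‖)) → μ' = μ := by
    intro μ' h'
    apply Subtype.ext
    exact pot_unique hN0 (g := fun ζ => N * (Real.log c - Real.log ‖d ζ‖)) (μ' : Measure I01)
      (μ : Measure I01) h' (fun ζ hζ _ => hμ ζ hζ)
  refine ⟨μ, ?_, ?_⟩
  · intro μ'
    rw [pot_iff hN0 hψn hψ0 hφ (μ' : Measure I01)]
    constructor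
    · intro h
      exact huniq μ' h
    · rintro rfl ζ hζ _
      exact hμ ζ hζ
  · intro p hp k hk
    obtain ⟨q, t, hq, ht, -⟩ := hlib p hp k hk
    refine ⟨q, fun j => ⟨(hq j).1, (hq j).2.1, ?_, ?_⟩, ?_⟩
    · rw [(hq j).2.2]; simp
    · intro y hy
      rw [(hq j).2.2, Multiset.mem_map] at hy
      obtain ⟨ν, hν, rfl⟩ := hy
      exact ht j ν (Multiset.mem_range.1 hν)
    · intro f hf
      set x : ℕ → ℕ → I01 := fun j ν => Set.projIcc (0 : ℝ) 1 zero_le_one (t j ν) with hx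
      have hconv : Tendsto (empP x) atTop (𝓝 μ) := by
        rw [tendsto_iff_ultrafilter]
        intro l hl
        obtain ⟨σ, -, hσ⟩ := isCompact_univ.ultrafilter_le_nhds (l.map (empP x)) (by simp)
        have h1 := lim_id p hp k q t hq x (fun j ν hν => hproj t ht j ν hν) l hl σ hσ
        have h2 : σ = μ := huniq σ (fun ζ hζ _ => h1 ζ hζ)
        rw [← h2]
        exact hσ
      rw [ProbabilityMeasure.tendsto_iff_forall_integral_tendsto] at hconv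
      have h1 := hconv (BoundedContinuousFunction.mkOfCompact
        ⟨fun y : I01 => f y, hf.comp continuous_subtype_val⟩)
      simp only [BoundedContinuousFunction.mkOfCompact_apply, ContinuousMap.coe_mk] at h1
      rw [← tendsto_add_atTop_iff_nat 1]
      refine h1.congr fun j => ?_
      have h2 : ∫ y : I01, f y ∂(empP x j : Measure I01) = _ :=
        integral_emp (j + 1) (x (j + 1)) (fun y => f y)
      rw [h2, (hq (j + 1)).2.2, Multiset.map_map]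
      congr 1
      change _ = ∑ ν ∈ Finset.range (j + 1), (f ∘ t (j + 1)) ν
      apply Finset.sum_congr rfl
      intro ν hν
      simp only [Function.comp_apply]
      rw [hx]
      simp only
      rw [hproj t ht (j + 1) ν (Finset.mem_range.1 hν)]

end Pool.Agent.Helper83.Berg
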