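import Pool.Agent.Helper83.Berg.Ext
import Pool.Graph.R_pool_sql_team_39128cda.Lib.helper9_.RMT

set_option autoImplicit false
open MeasureTheory Polynomial Set Metric Filter Topology

namespace Pool.Agent.Helper83.Berg

variable {K : Set ℂ} {ρ0 : ℝ}

/-- the conformal map of the exterior of `K` onto `|w| > 1`, normalised at infinity -/
structure IsExt (K : Set ℂ) (φ : ℂ → ℂ) (c : ℝ) : Prop where
  holo : DifferentiableOn ℂ φ Kᶜ
  bij : Set.BijOn φ Kᶜ {w | 1 < ‖w‖}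
  pos : 0 < c
  at_infty : Tendsto (fun z => φ z / z) (Bornology.cobounded ℂ) (𝓝 ((c : ℂ)⁻¹))

theorem UK_star (h : Body K ρ0) : StarConvex ℝ 0 (UK K) := by
  rw [starConvex_zero_iff]
  intro ζ hζ t ht0 ht1
  by_cases h1 : ζ = 0
  · left; rw [h1, smul_zero]
  rcases eq_or_lt_of_le ht0 with h2 | h2
  · left; rw [← h2, zero_smul]
  · right
    intro hK
    rcases hζ with h3 | h3
    · exact h1 h3
    · apply h3
      have e : ζ⁻¹ = t • (t • ζ)⁻¹ := by
        rw [Complex.real_smul, Complex.real_smul]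
        have : (t : ℂ) ≠ 0 := Complex.ofReal_ne_zero.2 h2.ne'
        field_simp
      rw [e]
      exact h.conv.starConvex h.zero_mem |>.smul_mem (by simpa using hK) ht0 ht1 |> fun x => x

theorem UK_sc (h : Body K ρ0) : IsSimplyConnected (UK K) := by
  have hc : ContractibleSpace (UK K) := (UK_star h).contractibleSpace ⟨0, Or.inl rfl⟩
  exact SimplyConnectedSpace.ofContractible _

theorem UK_preconn (h : Body K ρ0) : IsPreconnected (UK K) :=
  ((UK_star h).isPathConnected (Or.inl rfl)).isConnected.isPreconnected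

/-- the inverse of a bijective holomorphic function is holomorphic -/
theorem exists_inv {U : Set ℂ} (hU : IsOpen U) (hUc : IsPreconnected U) {ψ : ℂ → ℂ}
    (hψ : DifferentiableOn ℂ ψ U) (hb : BijOn ψ U (ball 0 1)) :
    ∃ F : ℂ → ℂ, DifferentiableOn ℂ F (ball 0 1) ∧ (∀ w ∈ ball (0 : ℂ) 1, F w ∈ U ∧ ψ (F w) = w) ∧
      ∀ z ∈ U, F (ψ z) = z := by
  set F := Function.invFunOn ψ U with hF
  have hl : ∀ z ∈ U, F (ψ z) = z := fun z hz => hb.injOn.leftInvOn_invFunOn hz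
  have hr : ∀ w ∈ ball (0 : ℂ) 1, F w ∈ U ∧ ψ (F w) = w := fun w hw =>
    ⟨Function.invFunOn_mem (hb.surjOn hw), Function.invFunOn_eq (hb.surjOn hw)⟩
  have han : AnalyticOnNhd ℂ ψ U := hψ.analyticOnNhd hU
  have hopen : ∀ s ⊆ U, IsOpen s → IsOpen (ψ '' s) := by
    rcases han.is_constant_or_isOpen hUc with ⟨w, hw⟩ | h1
    · exfalso
      have h0 : (0 : ℂ) ∈ ball (0 : ℂ) 1 := mem_ball_self one_pos
      have h2 : (1 / 2 : ℂ) ∈ ball (0 : ℂ) 1 := by
        rw [mem_ball_zero_iff]; norm_num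
      have e1 := (hr _ h0).2
      have e2 := (hr _ h2).2
      rw [hw _ (hr _ h0).1] at e1
      rw [hw _ (hr _ h2).1, e1] at e2
      norm_num at e2
    · exact h1
  have hcont : ∀ w ∈ ball (0 : ℂ) 1, ContinuousAt F w := by
    intro w hw
    rw [ContinuousAt, tendsto_def]
    intro V hV
    obtain ⟨V', hV', hVo, hmem⟩ := _root_.mem_nhds_iff.1 hV
    have h1 : IsOpen (ψ '' (V' ∩ U)) := hopen _ inter_subset_right (hVo.inter hU)
    have h2 : w ∈ ψ '' (V' ∩ U) := ⟨F w, ⟨hmem, (hr w hw).1⟩, (hr w hw).2⟩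
    filter_upwards [h1.mem_nhds h2] with x hx
    obtain ⟨y, ⟨hy1, hy2⟩, rfl⟩ := hx
    change F (ψ y) ∈ V
    rw [hl y hy2]
    exact hV' hy1
  have hderiv : ∀ z0 ∈ U, ∀ᶠ z in 𝓝[≠] z0, deriv ψ z ≠ 0 := by
    intro z0 hz0
    rcases (han.deriv z0 hz0).eventually_eq_zero_or_eventually_ne_zero with h1 | h1
    · exfalso
      obtain ⟨r, hr0, hrb⟩ := Metric.mem_nhds_iff.1 (inter_mem h1 (hU.mem_nhds hz0))
      have hpt : z0 + (r / 2 : ℝ) ∈ ball z0 r := by
        rw [mem_ball, dist_eq_norm, add_sub_cancel_left, Complex.norm_real, Real.norm_eq_abs,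
          abs_of_pos (by linarith)]
        linarith
      have e := isOpen_ball.is_const_of_deriv_eq_zero (convex_ball z0 r).isPreconnected
        (hψ.mono (fun x hx => (hrb hx).2)) (fun x hx => (hrb hx).1) (mem_ball_self hr0) hpt
      have e2 := hb.injOn hz0 (hrb hpt).2 e
      have : ((r / 2 : ℝ) : ℂ) = 0 := by
        have := e2.symm
        simpa using this
      rw [Complex.ofReal_eq_zero] at this
      linarith
    · exact h1
  refine ⟨F, fun w hw => ?_, hr, hl⟩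
  apply AnalyticAt.differentiableWithinAt
  apply Complex.analyticAt_of_differentiable_on_punctured_nhds_of_continuousAt _ (hcont w hw)
  have h1 := hderiv (F w) (hr w hw).1
  rw [eventually_nhdsWithin_iff] at h1 ⊢
  have h2 : ∀ᶠ x in 𝓝 w, x ∈ ball (0 : ℂ) 1 := isOpen_ball.mem_nhds hw
  filter_upwards [(hcont w hw).eventually h1, h2] with x hx hxb hne
  have hne' : F x ≠ F w := by
    intro he
    apply hne
    rw [← (hr x hxb).2, ← (hr w hw).2, he]
    rfl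
  have hx0 : deriv ψ (F x) ≠ 0 := hx hne'
  have hUx := (hr x hxb).1
  have h3 := ((hψ.analyticAt (hU.mem_nhds hUx)).hasStrictDerivAt.to_local_left_inverse hx0
    ((hU.eventually_mem hUx).mono hl)).hasDerivAt.differentiableAt
  rwa [(hr x hxb).2] at h3

/-- from the exterior map to the disc -/
theorem IsExt.toDisc (h : Body K ρ0) {φ : ℂ → ℂ} {c : ℝ} (he : IsExt K φ c) :
    ∃ ψ F : ℂ → ℂ, DifferentiableOn ℂ ψ (UK K) ∧ (∀ ζ ∈ UK K, ‖ψ ζ‖ < 1) ∧ ψ 0 = 0 ∧
      deriv ψ 0 = c ∧ (∀ ζ, ζ ≠ 0 → ψ ζ = (φ ζ⁻¹)⁻¹) ∧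
      DifferentiableOn ℂ F (ball 0 1) ∧ (∀ w ∈ ball (0 : ℂ) 1, F w ∈ UK K) ∧ F 0 = 0 ∧
      deriv F 0 = (c : ℂ)⁻¹ := by
  set ψ : ℂ → ℂ := Function.update (fun ζ => (φ ζ⁻¹)⁻¹) 0 0 with hψ
  have hψ0 : ψ 0 = 0 := by rw [hψ, Function.update_self]
  have hψn : ∀ ζ, ζ ≠ 0 → ψ ζ = (φ ζ⁻¹)⁻¹ := fun ζ hζ => by
    rw [hψ, Function.update_of_ne hζ]
  have hc0 : (c : ℂ) ≠ 0 := Complex.ofReal_ne_zero.2 he.pos.ne'
  have hnorm : ∀ z ∈ Kᶜ, 1 < ‖φ z‖ := fun z hz => he.bij.mapsTo hz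
  have hmemU : ∀ ζ ∈ UK K, ζ ≠ 0 → ζ⁻¹ ∈ Kᶜ := by
    rintro ζ (h1 | h1) h0
    · exact absurd h1 h0
    · exact h1
  have hder : HasDerivAt ψ c 0 := by
    rw [hasDerivAt_iff_tendsto_slope]
    have h1 : Tendsto (fun ζ : ℂ => (φ ζ⁻¹ / ζ⁻¹)⁻¹) (𝓝[≠] 0) (𝓝 c) := by
      have h2 : Tendsto (fun ζ : ℂ => φ ζ⁻¹ / ζ⁻¹) (𝓝[≠] 0) (𝓝 (c : ℂ)⁻¹) :=
        he.at_infty.comp Filter.tendsto_inv₀_nhdsNE_zero
      have h3 := h2.inv₀ (inv_ne_zero hc0)
      rwa [inv_inv] at h3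
    refine h1.congr' ?_
    filter_upwards [self_mem_nhdsWithin] with ζ hζ
    rw [slope_def_field, hψ0, hψn ζ hζ, sub_zero, sub_zero, inv_div, div_eq_mul_inv, div_eq_mul_inv,
      mul_comm]
  have hdiff : DifferentiableOn ℂ ψ (UK K) := by
    rw [← Complex.differentiableOn_compl_singleton_and_continuousAt_iff
      ((UK_open h).mem_nhds (Or.inl rfl))]
    refine ⟨?_, hder.continuousAt⟩
    intro ζ hζ
    have h0 : ζ ≠ 0 := hζ.2
    have hk := hmemU ζ hζ.1 h0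
    have h1 : DifferentiableAt ℂ φ ζ⁻¹ :=
      he.holo.differentiableAt (h.comp.isClosed.isOpen_compl.mem_nhds hk)
    have h2 : DifferentiableAt ℂ (fun ζ : ℂ => (φ ζ⁻¹)⁻¹) ζ := by
      apply DifferentiableAt.inv
      · exact h1.comp ζ (differentiableAt_inv h0)
      · intro h3
        have := hnorm _ hk
        rw [h3, norm_zero] at this
        linarith
    have h3 : ψ =ᶠ[𝓝 ζ] (fun ζ : ℂ => (φ ζ⁻¹)⁻¹) := by
      filter_upwards [isOpen_ne.mem_nhds h0] with x hx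
      exact hψn x hx
    exact (h2.congr_of_eventuallyEq h3).differentiableWithinAt
  have hlt : ∀ ζ ∈ UK K, ‖ψ ζ‖ < 1 := by
    intro ζ hζ
    by_cases h0 : ζ = 0
    · rw [h0, hψ0, norm_zero]; exact one_pos
    · rw [hψn ζ h0, norm_inv]
      exact inv_lt_one_of_one_lt₀ (hnorm _ (hmemU ζ hζ h0))
  have hbij : BijOn ψ (UK K) (ball 0 1) := by
    refine ⟨fun ζ hζ => mem_ball_zero_iff.2 (hlt ζ hζ), ?_, ?_⟩
    · intro x hx y hy hxy
      by_cases hx0 : x = 0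
      · by_cases hy0 : y = 0
        · rw [hx0, hy0]
        · exfalso
          rw [hx0, hψ0, hψn y hy0] at hxy
          have := hnorm _ (hmemU y hy hy0)
          rw [inv_eq_zero.1 hxy.symm, norm_zero] at this
          linarith
      · by_cases hy0 : y = 0
        · exfalso
          rw [hy0, hψ0, hψn x hx0] at hxy
          have := hnorm _ (hmemU x hx hx0)
          rw [inv_eq_zero.1 hxy, norm_zero] at this
          linarith
        · rw [hψn x hx0, hψn y hy0] at hxy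
          exact inv_injective (he.bij.injOn (hmemU x hx hx0) (hmemU y hy hy0)
            (inv_injective hxy))
    · intro w hw
      by_cases hw0 : w = 0
      · exact ⟨0, Or.inl rfl, by rw [hψ0, hw0]⟩
      · rw [mem_ball_zero_iff] at hw
        have h1 : w⁻¹ ∈ {w : ℂ | 1 < ‖w‖} := by
          change 1 < ‖w⁻¹‖
          rw [norm_inv]
          exact (one_lt_inv₀ (norm_pos_iff.2 hw0)).2 hw
        obtain ⟨z, hz, hzw⟩ := he.bij.surjOn h1
        have hz0 : z ≠ 0 := by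
          rintro rfl
          exact hz h.zero_mem
        refine ⟨z⁻¹, Or.inr (by rwa [inv_inv]), ?_⟩
        rw [hψn _ (inv_ne_zero hz0), inv_inv, hzw, inv_inv]
  obtain ⟨F, hF1, hF2, hF3⟩ := exists_inv (UK_open h) (UK_preconn h) hdiff hbij
  have hF0 : F 0 = 0 := by
    have := hF3 0 (Or.inl rfl)
    rwa [hψ0] at this
  refine ⟨ψ, F, hdiff, hlt, hψ0, hder.deriv, hψn, hF1, fun w hw => (hF2 w hw).1, hF0, ?_⟩
  have hFd : HasDerivAt F (deriv F 0) (ψ 0) := by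
    rw [hψ0]
    exact (hF1.differentiableAt (ball_mem_nhds _ one_pos)).hasDerivAt
  have h1 : HasDerivAt (F ∘ ψ) (deriv F 0 * c) 0 := hFd.comp 0 hder
  have h2 : HasDerivAt (F ∘ ψ) 1 0 := by
    apply (hasDerivAt_id (0 : ℂ)).congr_of_eventuallyEq
    filter_upwards [(UK_open h).mem_nhds (Or.inl rfl)] with x hx
    exact hF3 x hx
  have h3 := h1.unique h2
  exact eq_inv_of_mul_eq_one_left h3

/-- existence of the exterior map -/
theorem exists_isExt (h : Body K ρ0) : ∃ (φ : ℂ → ℂ) (c : ℝ), IsExt K φ c := by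
  have hb : Bornology.IsBounded (UK K) := by
    rw [isBounded_iff_subset_closedBall 0]
    exact ⟨ρ0⁻¹, fun x hx => mem_closedBall_zero_iff.2 (UK_bdd h hx)⟩
  obtain ⟨ψ, F, hc⟩ := Pool.Agent.Lib.helper9.RMT.rmt_bounded (UK_open h) (UK_sc h) hb
    (p := 0) (Or.inl rfl)
  have hinj : InjOn ψ (UK K) := by
    intro x hx y hy hxy
    rw [← hc.l x hx, ← hc.l y hy, hxy]
  have h0 : (0 : ℂ) ∈ UK K := Or.inl rfl
  have hd : HasDerivAt ψ (deriv ψ 0) 0 :=
    (hc.dψ.differentiableAt ((UK_open h).mem_nhds h0)).hasDerivAt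
  have hF0 : F 0 = 0 := by
    have := hc.l 0 h0
    rwa [hc.z] at this
  have hdne : deriv ψ 0 ≠ 0 := by
    intro hz
    have hFd : HasDerivAt F (deriv F 0) (ψ 0) := by
      rw [hc.z]
      exact (hc.dφ.differentiableAt (ball_mem_nhds _ one_pos)).hasDerivAt
    have h1 : HasDerivAt (F ∘ ψ) (deriv F 0 * deriv ψ 0) 0 := hFd.comp 0 hd
    have h2 : HasDerivAt (F ∘ ψ) 1 0 := by
      apply (hasDerivAt_id (0 : ℂ)).congr_of_eventuallyEq
      filter_upwards [(UK_open h).mem_nhds h0] with x hx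
      exact hc.l x hx
    have h3 := h1.unique h2
    rw [hz, mul_zero] at h3
    exact zero_ne_one h3
  set a := deriv ψ 0 with ha
  set α : ℂ := a / (‖a‖ : ℂ) with hα
  have hna : (‖a‖ : ℂ) ≠ 0 := Complex.ofReal_ne_zero.2 (norm_ne_zero_iff.2 hdne)
  have hαn : ‖α‖ = 1 := by
    rw [hα, norm_div, Complex.norm_real, norm_norm]
    exact div_self (norm_ne_zero_iff.2 hdne)
  have hα0 : α ≠ 0 := by
    intro hz
    rw [hz, norm_zero] at hαn
    exact zero_ne_one hαn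
  have hmem : ∀ z ∈ Kᶜ, z⁻¹ ∈ UK K ∧ z⁻¹ ≠ 0 ∧ ψ z⁻¹ ≠ 0 := by
    intro z hz
    have hz0 : z ≠ 0 := by
      rintro rfl
      exact hz h.zero_mem
    have h1 : z⁻¹ ∈ UK K := Or.inr (by rwa [inv_inv])
    refine ⟨h1, inv_ne_zero hz0, fun h2 => inv_ne_zero hz0 (hinj h1 h0 ?_)⟩
    rw [h2, hc.z]
  refine ⟨fun z => α / ψ z⁻¹, ‖a‖, ⟨?_, ⟨?_, ?_, ?_⟩, norm_pos_iff.2 hdne, ?_⟩⟩
  · intro z hz
    obtain ⟨h1, h2, h3⟩ := hmem z hz
    have hz0 : z ≠ 0 := by simpa using h2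
    apply DifferentiableAt.differentiableWithinAt
    have h4 : DifferentiableAt ℂ ψ z⁻¹ := hc.dψ.differentiableAt ((UK_open h).mem_nhds h1)
    have h5 : DifferentiableAt ℂ (fun z => ψ z⁻¹) z := h4.comp z (differentiableAt_inv hz0)
    exact (differentiableAt_const α).fun_div h5 h3
  · intro z hz
    obtain ⟨h1, h2, h3⟩ := hmem z hz
    change 1 < ‖α / ψ z⁻¹‖
    rw [norm_div, hαn, one_div]
    exact (one_lt_inv₀ (norm_pos_iff.2 h3)).2 (mem_ball_zero_iff.1 (hc.mψ h1))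
  · intro x hx y hy hxy
    obtain ⟨x1, x2, x3⟩ := hmem x hx
    obtain ⟨y1, y2, y3⟩ := hmem y hy
    simp only at hxy
    rw [div_eq_div_iff x3 y3] at hxy
    exact inv_injective (hinj y1 x1 (mul_left_cancel₀ hα0 hxy)).symm
  · intro w hw
    change 1 < ‖w‖ at hw
    have hw0 : w ≠ 0 := by
      rintro rfl
      rw [norm_zero] at hw
      linarith
    have h1 : α / w ∈ ball (0 : ℂ) 1 := by
      rw [mem_ball_zero_iff, norm_div, hαn, one_div]
      exact inv_lt_one_of_one_lt₀ hw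
    have h2 := hc.mφ h1
    have h3 := hc.r _ h1
    have h4 : F (α / w) ≠ 0 := by
      intro h5
      rw [h5, hc.z] at h3
      exact div_ne_zero hα0 hw0 h3.symm
    refine ⟨(F (α / w))⁻¹, ?_, ?_⟩
    · rcases h2 with h2 | h2
      · exact absurd h2 h4
      · exact h2
    · simp only [inv_inv]
      rw [h3]
      field_simp
  · have h1 : Tendsto (fun ζ : ℂ => slope ψ 0 ζ) (𝓝[≠] 0) (𝓝 a) :=
      hasDerivAt_iff_tendsto_slope.1 hd
    have h2 : Tendsto (fun z : ℂ => slope ψ 0 z⁻¹) (Bornology.cobounded ℂ) (𝓝 a) :=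
      h1.comp Filter.tendsto_inv₀_cobounded'
    have h3 : Tendsto (fun z : ℂ => α * (slope ψ 0 z⁻¹)⁻¹) (Bornology.cobounded ℂ) (𝓝 (α * a⁻¹)) :=
      (h2.inv₀ hdne).const_mul α
    have e : α * a⁻¹ = ((‖a‖ : ℝ) : ℂ)⁻¹ := by
      rw [hα]; field_simp
    rw [e] at h3
    refine h3.congr' ?_
    refine Filter.Eventually.of_forall fun z => ?_
    change α * (slope ψ 0 z⁻¹)⁻¹ = α / ψ z⁻¹ / z
    rw [slope_def_field, hc.z, sub_zero, sub_zero, inv_div, div_eq_mul_inv, div_eq_mul_inv,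
      div_eq_mul_inv]
    ring

end Pool.Agent.Helper83.Berg
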