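import Mathlib

set_option autoImplicit false
open MeasureTheory Set Metric Filter Topology

namespace Pool.Agent.Helper83.Berg

/-- the interval `[0,1]` -/
abbrev I01 : Set ℝ := Set.Icc (0 : ℝ) 1

/-- `∫ log(1 - x s) dσ(x)` -/
noncomputable def Lc (σ : Measure I01) (s : ℂ) : ℂ := ∫ x : I01, Complex.log (1 - ((x : ℝ) : ℂ) * s) ∂σ

/-- `∫ log|1 - x s| dσ(x)` -/
noncomputable def Uc (σ : Measure I01) (s : ℂ) : ℝ := ∫ x : I01, Real.log ‖1 - ((x : ℝ) : ℂ) * s‖ ∂σ

theorem norm_xs (x : I01) (s : ℂ) : ‖((x : ℝ) : ℂ) * s‖ ≤ ‖s‖ := by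
  rw [norm_mul, Complex.norm_real, Real.norm_eq_abs, abs_of_nonneg x.2.1]
  exact mul_le_of_le_one_left (norm_nonneg _) x.2.2

theorem slit (x : I01) {s : ℂ} (hs : ‖s‖ < 1) : 1 - ((x : ℝ) : ℂ) * s ∈ Complex.slitPlane := by
  left
  have h1 := (Complex.re_le_norm (((x : ℝ) : ℂ) * s)).trans (norm_xs x s)
  rw [Complex.sub_re, Complex.one_re]
  linarith

theorem cont_log {s : ℂ} (hs : ‖s‖ < 1) :
    Continuous (fun x : I01 => Complex.log (1 - ((x : ℝ) : ℂ) * s)) := by
  apply Continuous.clog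
  · fun_prop
  · intro x; exact slit x hs

theorem cont_rlog {s : ℂ} (hs : ‖s‖ < 1) :
    Continuous (fun x : I01 => Real.log ‖1 - ((x : ℝ) : ℂ) * s‖) := by
  have h1 := Complex.continuous_re.comp (cont_log hs)
  refine h1.congr fun x => ?_
  simp only [Function.comp_apply, Complex.log_re]

theorem int_of_cont {E : Type*} [NormedAddCommGroup E] (σ : Measure I01) [IsProbabilityMeasure σ]
    {f : I01 → E} (hf : Continuous f) : Integrable f σ := by
  have := hf.continuousOn.integrableOn_compact (μ := σ) isCompact_univ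
  rwa [integrableOn_univ] at this

variable (σ : Measure I01) [IsProbabilityMeasure σ]

theorem Lc_re {s : ℂ} (hs : ‖s‖ < 1) : (Lc σ s).re = Uc σ s := by
  unfold Lc Uc
  have h1 : ∀ x : I01, Real.log ‖1 - ((x : ℝ) : ℂ) * s‖ =
      (Complex.log (1 - ((x : ℝ) : ℂ) * s)).re := fun x => by rw [Complex.log_re]
  simp_rw [h1]
  exact (Complex.reCLM.integral_comp_comm (int_of_cont σ (cont_log hs))).symm

/-- moments -/
noncomputable def mom (σ : Measure I01) (n : ℕ) : ℝ := ∫ x : I01, (x : ℝ) ^ n ∂σ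

theorem hasSum_Lc {s : ℂ} (hs : ‖s‖ < 1) :
    HasSum (fun n : ℕ => -((mom σ n : ℂ) * s ^ n / n)) (Lc σ s) := by
  set F : ℕ → I01 → ℂ := fun n x => -((((x : ℝ) : ℂ) * s) ^ n / n) with hF
  have hFc : ∀ n, Continuous (F n) := by
    intro n
    rw [hF]
    simp only [div_eq_mul_inv]
    fun_prop
  have hFn : ∀ n x, ‖F n x‖ ≤ ‖s‖ ^ n := by
    intro n x
    rw [hF]
    simp only [norm_neg, norm_div, norm_pow]
    rcases Nat.eq_zero_or_pos n with h0 | h0
    · subst h0; simp
    · have h1 : (1 : ℝ) ≤ ‖(n : ℂ)‖ := by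
        rw [Complex.norm_natCast]; exact_mod_cast h0
      calc ‖((x : ℝ) : ℂ) * s‖ ^ n / ‖(n : ℂ)‖ ≤ ‖((x : ℝ) : ℂ) * s‖ ^ n :=
            div_le_self (by positivity) h1
        _ ≤ ‖s‖ ^ n := by
            gcongr
            exact norm_xs x s
  have h1 := hasSum_integral_of_summable_integral_norm (μ := σ) (F := F)
    (fun n => int_of_cont σ (hFc n)) (by
      apply Summable.of_nonneg_of_le (fun n => by positivity) (fun n => ?_)
        (summable_geometric_of_lt_one (norm_nonneg s) hs)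
      have := integral_mono (int_of_cont σ (hFc n).norm) (integrable_const (‖s‖ ^ n))
        (fun x => hFn n x)
      simpa using this)
  have h2 : ∀ x : I01, ∑' n, F n x = Complex.log (1 - ((x : ℝ) : ℂ) * s) := by
    intro x
    have h3 := (Complex.hasSum_taylorSeries_neg_log
      (lt_of_le_of_lt (norm_xs x s) hs)).neg
    rw [neg_neg] at h3
    exact h3.tsum_eq
  simp_rw [h2] at h1
  have e : (fun n : ℕ => -((mom σ n : ℂ) * s ^ n / n)) = fun n : ℕ => ∫ x : I01, F n x ∂σ := by
   funext n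
   rw [hF]
   simp only
   rw [integral_neg]
   congr 1
   have h4 : ∀ x : I01, (((x : ℝ) : ℂ) * s) ^ n / (n : ℂ) = (((x : ℝ) ^ n : ℝ) : ℂ) * (s ^ n / n) := by
     intro x; push_cast; ring
   simp_rw [h4]
   rw [integral_mul_const, integral_complex_ofReal]
   unfold mom
   ring
  rw [e]
  exact h1

theorem mom_le (n : ℕ) : |mom σ n| ≤ 1 := by
  unfold mom
  have h1 : ‖∫ x : I01, (x : ℝ) ^ n ∂σ‖ ≤ 1 * σ.real univ := by
    apply norm_integral_le_of_norm_le_const
    refine Filter.Eventually.of_forall fun x => ?_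
    rw [norm_pow, Real.norm_eq_abs, abs_of_nonneg x.2.1]
    exact pow_le_one₀ x.2.1 x.2.2
  simpa using h1

theorem Lc_diff : DifferentiableOn ℂ (Lc σ) (ball 0 1) := by
  intro s hs
  rw [mem_ball_zero_iff] at hs
  obtain ⟨r, hr1, hr2⟩ := exists_between hs
  have hr0 : 0 ≤ r := (norm_nonneg s).trans hr1.le
  have h1 : DifferentiableOn ℂ (fun w : ℂ => ∑' n : ℕ, -((mom σ n : ℂ) * w ^ n / n)) (ball 0 r) := by
    apply Complex.differentiableOn_tsum_of_summable_norm
      (summable_geometric_of_lt_one hr0 hr2) _ isOpen_ball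
    · intro n w hw
      rw [mem_ball_zero_iff] at hw
      rw [norm_neg, norm_div, norm_mul, norm_pow, Complex.norm_real]
      have h2 : ‖mom σ n‖ * ‖w‖ ^ n ≤ r ^ n := by
        calc ‖mom σ n‖ * ‖w‖ ^ n ≤ 1 * r ^ n := by
              gcongr
              exact mom_le σ n
          _ = r ^ n := one_mul _
      rcases Nat.eq_zero_or_pos n with h0 | h0
      · subst h0; simp
      · have h1 : (1 : ℝ) ≤ ‖(n : ℂ)‖ := by
          rw [Complex.norm_natCast]; exact_mod_cast h0
        exact (div_le_self (by positivity) h1).trans h2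
    · intro n
      apply Differentiable.differentiableOn
      simp only [div_eq_mul_inv]
      fun_prop
  have h2 : DifferentiableAt ℂ (fun w : ℂ => ∑' n : ℕ, -((mom σ n : ℂ) * w ^ n / n)) s :=
    h1.differentiableAt (isOpen_ball.mem_nhds (mem_ball_zero_iff.2 hr1))
  apply DifferentiableAt.differentiableWithinAt
  apply h2.congr_of_eventuallyEq
  filter_upwards [isOpen_ball.mem_nhds (mem_ball_zero_iff.2 hs)] with w hw
  exact (hasSum_Lc σ (mem_ball_zero_iff.1 hw)).tsum_eq.symm

theorem hasSum_Uc {t : ℝ} (ht : |t| < 1) :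
    HasSum (fun n : ℕ => -(mom σ n * t ^ n / n)) (Uc σ (t : ℂ)) := by
  have h0 : ‖(t : ℂ)‖ < 1 := by rwa [Complex.norm_real, Real.norm_eq_abs]
  have h1 := Complex.hasSum_re (hasSum_Lc σ h0)
  rw [Lc_re σ h0] at h1
  have e : (fun n : ℕ => -(mom σ n * t ^ n / n)) =
      fun n : ℕ => (-((mom σ n : ℂ) * (t : ℂ) ^ n / n)).re := by
    funext n
    rw [← Complex.ofReal_re (-(mom σ n * t ^ n / n))]
    push_cast
    rfl
  rw [e]
  exact h1

theorem ext_of_Uc (σ μ : Measure I01) [IsProbabilityMeasure σ] [IsProbabilityMeasure μ]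
    (h : ∀ t : ℝ, |t| < 1 → Uc σ (t : ℂ) = Uc μ (t : ℂ)) : σ = μ := by
  have hm : ∀ n, mom σ n = mom μ n := by
    have hps : HasFPowerSeriesAt (0 : ℝ → ℝ)
        (FormalMultilinearSeries.ofScalars ℝ (fun n : ℕ => -((mom σ n - mom μ n) / n))) 0 := by
      rw [hasFPowerSeriesAt_iff]
      have h1 : Metric.ball (0 : ℝ) 1 ∈ 𝓝 (0 : ℝ) := ball_mem_nhds _ one_pos
      filter_upwards [h1] with t ht
      rw [mem_ball_zero_iff, Real.norm_eq_abs] at ht
      have h2 := (hasSum_Uc σ ht).sub (hasSum_Uc μ ht)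
      rw [h t ht, sub_self] at h2
      simp only [FormalMultilinearSeries.coeff_ofScalars, Pi.zero_apply, smul_eq_mul]
      convert h2 using 1
      ext n
      ring
    have h0 := hps.eq_zero
    intro n
    rcases Nat.eq_zero_or_pos n with hn | hn
    · subst hn; unfold mom; simp
    · have h1 := congrArg (fun p => p.coeff n) h0
      simp only [FormalMultilinearSeries.coeff_ofScalars] at h1
      have h2 : (n : ℝ) ≠ 0 := by positivity
      have h3 : (0 : FormalMultilinearSeries ℝ ℝ ℝ).coeff n = 0 := by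
        simp [FormalMultilinearSeries.coeff]
      rw [h3, neg_eq_zero, div_eq_zero_iff] at h1
      rcases h1 with h1 | h1
      · linarith
      · exact absurd h1 h2
  have hp : ∀ p : Polynomial ℝ, ∫ x : I01, p.eval (x : ℝ) ∂σ = ∫ x : I01, p.eval (x : ℝ) ∂μ := by
    intro p
    have e : ∀ (τ : Measure I01) [IsProbabilityMeasure τ], ∫ x : I01, p.eval (x : ℝ) ∂τ =
        ∑ i ∈ Finset.range (p.natDegree + 1), p.coeff i * mom τ i := by
      intro τ _
      simp_rw [Polynomial.eval_eq_sum_range]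
      rw [integral_finsetSum _ (fun i _ => int_of_cont τ (by fun_prop))]
      apply Finset.sum_congr rfl
      intro i _
      rw [integral_const_mul]
      rfl
    rw [e σ, e μ]
    simp_rw [hm]
  apply ext_of_forall_integral_eq_of_IsFiniteMeasure
  intro f
  apply eq_of_forall_dist_le
  intro ε hε
  obtain ⟨p, hpf⟩ := exists_polynomial_near_continuousMap 0 1 f.toContinuousMap (ε / 2) (by linarith)
  have hb : ∀ (τ : Measure I01) [IsProbabilityMeasure τ],
      |∫ x : I01, f x ∂τ - ∫ x : I01, p.eval (x : ℝ) ∂τ| ≤ ε / 2 := by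
    intro τ _
    rw [← integral_sub (int_of_cont τ f.continuous) (int_of_cont τ (by fun_prop))]
    have h1 : ‖∫ x : I01, (f x - p.eval (x : ℝ)) ∂τ‖ ≤ ε / 2 * τ.real univ := by
      apply norm_integral_le_of_norm_le_const
      refine Filter.Eventually.of_forall fun x => ?_
      have h2 := ContinuousMap.norm_coe_le_norm (p.toContinuousMapOn I01 - f.toContinuousMap) x
      have h3 := h2.trans hpf.le
      rw [← norm_neg]
      simpa using h3
    simpa using h1
  have h1 := hb σ
  have h2 := hb μ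
  rw [hp p] at h1
  rw [Real.dist_eq]
  have h3 : ∫ x : I01, f x ∂σ - ∫ x : I01, f x ∂μ =
      (∫ x : I01, f x ∂σ - ∫ x : I01, p.eval (x : ℝ) ∂μ) -
      (∫ x : I01, f x ∂μ - ∫ x : I01, p.eval (x : ℝ) ∂μ) := by ring
  rw [h3]
  exact (abs_sub _ _).trans (by linarith)

end Pool.Agent.Helper83.Berg
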