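import Pool.Agent.Helper83.Berg.Ortho
import Pool.Agent.Helper83.Berg.Meas
import Pool.Agent.Helper83.Berg.Map

set_option autoImplicit false
open MeasureTheory Polynomial Set Metric Filter Topology
open Pool.Agent.H92Berg

namespace Pool.Agent.Helper83.Berg

/-- the empirical measure -/
noncomputable def emp (j : ℕ) (x : ℕ → I01) : Measure I01 :=
  (j : ENNReal)⁻¹ • ∑ ν ∈ Finset.range j, Measure.dirac (x ν)

theorem emp_prob (j : ℕ) (hj : 0 < j) (x : ℕ → I01) : IsProbabilityMeasure (emp j x) := by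
  constructor
  unfold emp
  rw [Measure.smul_apply, Measure.finset_sum_apply]
  simp only [measure_univ, Finset.sum_const, Finset.card_range, smul_eq_mul, nsmul_eq_mul, mul_one]
  apply ENNReal.inv_mul_cancel
  · exact_mod_cast hj.ne'
  · exact ENNReal.natCast_ne_top j

theorem integral_emp (j : ℕ) (x : ℕ → I01) (f : I01 → ℝ) :
    ∫ y, f y ∂(emp j x) = (∑ ν ∈ Finset.range j, f (x ν)) / j := by
  unfold emp
  rw [integral_smul_measure, integral_finsetSum_measure]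
  · simp only [integral_dirac, smul_eq_mul, ENNReal.toReal_inv, ENNReal.toReal_natCast]
    rw [div_eq_inv_mul]
  · intro i _
    apply integrable_dirac
    exact enorm_lt_top

/-- the shifted empirical measures as probability measures -/
noncomputable def empP (x : ℕ → ℕ → I01) (j : ℕ) : ProbabilityMeasure I01 :=
  ⟨emp (j + 1) (x (j + 1)), emp_prob (j + 1) (Nat.succ_pos j) _⟩

theorem Uc_lim {l : Filter ℕ} {x : ℕ → ℕ → I01} {σ : ProbabilityMeasure I01}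
    (h : Tendsto (empP x) l (𝓝 σ)) {s : ℂ} (hs : ‖s‖ < 1) :
    Tendsto (fun j : ℕ => (∑ ν ∈ Finset.range (j + 1),
      Real.log ‖1 - ((x (j + 1) ν : ℝ) : ℂ) * s‖) / ((j + 1 : ℕ) : ℝ)) l
      (𝓝 (Uc (σ : Measure I01) s)) := by
  rw [ProbabilityMeasure.tendsto_iff_forall_integral_tendsto] at h
  have h1 := h (BoundedContinuousFunction.mkOfCompact ⟨_, cont_rlog hs⟩)
  simp only [BoundedContinuousFunction.mkOfCompact_apply, ContinuousMap.coe_mk] at h1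
  refine h1.congr' ?_
  refine Filter.Eventually.of_forall fun j => ?_
  exact integral_emp (j + 1) (x (j + 1)) _

theorem limit_le {N k : ℕ} {l : Filter ℕ} [l.NeBot] (hl : l ≤ atTop) {x : ℕ → ℕ → I01}
    {σ : ProbabilityMeasure I01} (h : Tendsto (empP x) l (𝓝 σ)) {d : ℂ → ℂ} {c : ℝ} (hc : 0 < c)
    (hN : 0 < N) (hdc : ContinuousOn d (ball 0 1)) (hd : ∀ ζ ∈ ball (0 : ℂ) 1, d ζ ≠ 0)
    (hb : ∀ r : ℝ, 0 < r → r < 1 → ∃ A : ℝ, 0 < A ∧ ∀ j : ℕ, ∀ ζ ∈ ball (0 : ℂ) 1,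
      (∏ ν ∈ Finset.range j, ‖1 - ((x j ν : ℝ) : ℂ) * ζ ^ N‖) *
        (r * ‖d (r * ζ)‖) ^ (j * N + k) ≤ A * (c * r⁻¹) ^ (j * N + k)) {ζ : ℂ}
    (hζ : ζ ∈ ball (0 : ℂ) 1) :
    Uc (σ : Measure I01) (ζ ^ N) ≤ N * (Real.log c - Real.log ‖d ζ‖) := by
  have hζ1 : ‖ζ‖ < 1 := mem_ball_zero_iff.1 hζ
  have hs : ‖ζ ^ N‖ < 1 := by
    rw [norm_pow]; exact pow_lt_one₀ (norm_nonneg _) hζ1 hN.ne'
  -- the bound for fixed r
  have key : ∀ r : ℝ, 0 < r → r < 1 → Uc (σ : Measure I01) (ζ ^ N) ≤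
      N * (Real.log (c * r⁻¹) - Real.log (r * ‖d (r * ζ)‖)) := by
    intro r hr0 hr1
    obtain ⟨A, hA, hAb⟩ := hb r hr0 hr1
    have hrζ : (r : ℂ) * ζ ∈ ball (0 : ℂ) 1 := by
      rw [mem_ball_zero_iff, norm_mul, Complex.norm_real, Real.norm_eq_abs, abs_of_pos hr0]
      nlinarith [norm_nonneg ζ]
    have hdr : 0 < r * ‖d (r * ζ)‖ := mul_pos hr0 (norm_pos_iff.2 (hd _ hrζ))
    have hcr : 0 < c * r⁻¹ := mul_pos hc (inv_pos.2 hr0)
    set L1 := Real.log (c * r⁻¹) with hL1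
    set L2 := Real.log (r * ‖d (r * ζ)‖) with hL2
    have hterm : ∀ j : ℕ, (∑ ν ∈ Finset.range (j + 1),
        Real.log ‖1 - ((x (j + 1) ν : ℝ) : ℂ) * ζ ^ N‖) / ((j + 1 : ℕ) : ℝ) ≤
        Real.log A * (1 / ((j : ℝ) + 1)) + (N + k * (1 / ((j : ℝ) + 1))) * (L1 - L2) := by
      intro j
      have h1 := hAb (j + 1) ζ hζ
      have hne : ∀ ν ∈ Finset.range (j + 1), ‖1 - ((x (j + 1) ν : ℝ) : ℂ) * ζ ^ N‖ ≠ 0 := by
        intro ν _
        exact norm_ne_zero_iff.2 (Complex.slitPlane_ne_zero (slit (x (j + 1) ν) hs))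
      have hprod : 0 < ∏ ν ∈ Finset.range (j + 1), ‖1 - ((x (j + 1) ν : ℝ) : ℂ) * ζ ^ N‖ :=
        Finset.prod_pos fun ν hν => lt_of_le_of_ne (norm_nonneg _) (hne ν hν).symm
      have h2 := Real.log_le_log (mul_pos hprod (pow_pos hdr _)) h1
      rw [Real.log_mul hprod.ne' (pow_pos hdr _).ne', Real.log_pow,
        Real.log_mul hA.ne' (pow_pos hcr _).ne', Real.log_pow, Real.log_prod hne] at h2
      have hj : (0 : ℝ) < ((j + 1 : ℕ) : ℝ) := by positivity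
      rw [div_le_iff₀ hj]
      push_cast at h2 ⊢
      have hj' : (0 : ℝ) < (j : ℝ) + 1 := by positivity
      have e : (Real.log A * (1 / ((j : ℝ) + 1)) + (N + k * (1 / ((j : ℝ) + 1))) * (L1 - L2)) *
          ((j : ℝ) + 1) = Real.log A + (((j : ℝ) + 1) * N + k) * (L1 - L2) := by
        field_simp
      rw [e]
      linarith
    have hlim1 : Tendsto (fun j : ℕ => 1 / ((j : ℝ) + 1)) l (𝓝 0) :=
      tendsto_one_div_add_atTop_nhds_zero_nat.mono_left hl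
    have hlim : Tendsto (fun j : ℕ => Real.log A * (1 / ((j : ℝ) + 1)) +
        (N + k * (1 / ((j : ℝ) + 1))) * (L1 - L2)) l
        (𝓝 (Real.log A * 0 + (N + k * 0) * (L1 - L2))) :=
      (hlim1.const_mul _).add (((hlim1.const_mul _).const_add _).mul_const _)
    have h3 := le_of_tendsto_of_tendsto' (Uc_lim h hs) hlim hterm
    simpa using h3
  -- let r tend to 1
  have hcont : Tendsto (fun r : ℝ => (N : ℝ) * (Real.log (c * r⁻¹) - Real.log (r * ‖d (r * ζ)‖)))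
      (𝓝[<] 1) (𝓝 (N * (Real.log c - Real.log ‖d ζ‖))) := by
    have hr1 : Tendsto (fun r : ℝ => r) (𝓝[<] (1 : ℝ)) (𝓝 1) := nhdsWithin_le_nhds
    have h1 : Tendsto (fun r : ℝ => c * r⁻¹) (𝓝[<] (1 : ℝ)) (𝓝 (c * 1⁻¹)) :=
      (hr1.inv₀ one_ne_zero).const_mul c
    have h2 : Tendsto (fun r : ℝ => (r : ℂ) * ζ) (𝓝[<] (1 : ℝ)) (𝓝 (((1 : ℝ) : ℂ) * ζ)) :=
      ((Complex.continuous_ofReal.tendsto 1).comp hr1).mul_const ζ
    have h3 : Tendsto (fun r : ℝ => d (r * ζ)) (𝓝[<] (1 : ℝ)) (𝓝 (d (((1 : ℝ) : ℂ) * ζ))) := by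
      have : ContinuousAt d (((1 : ℝ) : ℂ) * ζ) := by
        rw [Complex.ofReal_one, one_mul]
        exact hdc.continuousAt (isOpen_ball.mem_nhds hζ)
      exact this.tendsto.comp h2
    have h4 : Tendsto (fun r : ℝ => r * ‖d (r * ζ)‖) (𝓝[<] (1 : ℝ))
        (𝓝 (1 * ‖d (((1 : ℝ) : ℂ) * ζ)‖)) := hr1.mul h3.norm
    rw [Complex.ofReal_one, one_mul, one_mul] at h4
    rw [inv_one, mul_one] at h1
    exact ((h1.log hc.ne').sub (h4.log (norm_ne_zero_iff.2 (hd ζ hζ)))).const_mul _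
  refine ge_of_tendsto hcont ?_
  have h5 : Ioo (0 : ℝ) 1 ∈ 𝓝[<] (1 : ℝ) := Ioo_mem_nhdsLT one_pos
  filter_upwards [h5] with r hr
  exact key r hr.1 hr.2

theorem Uc_zero (σ : Measure I01) : Uc σ 0 = 0 := by
  unfold Uc; simp

theorem Lc_zero (σ : Measure I01) : Lc σ 0 = 0 := by
  unfold Lc; simp

/-- the strong maximum principle turns the inequality into an equality -/
theorem limit_eq {N : ℕ} (hN : 0 < N) (σ : Measure I01) [IsProbabilityMeasure σ] {d : ℂ → ℂ}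
    {c : ℝ} (hc : 0 < c) (hdd : DifferentiableOn ℂ d (ball 0 1))
    (hd : ∀ ζ ∈ ball (0 : ℂ) 1, d ζ ≠ 0) (hd0 : d 0 = c)
    (hle : ∀ ζ ∈ ball (0 : ℂ) 1, Uc σ (ζ ^ N) ≤ N * (Real.log c - Real.log ‖d ζ‖)) :
    ∀ ζ ∈ ball (0 : ℂ) 1, Uc σ (ζ ^ N) = N * (Real.log c - Real.log ‖d ζ‖) := by
  have hc0 : (c : ℂ) ≠ 0 := Complex.ofReal_ne_zero.2 hc.ne'
  set E : ℂ → ℂ := fun ζ => Complex.exp (Lc σ (ζ ^ N)) * (d ζ / c) ^ N with hE
  have hpow : ∀ ζ ∈ ball (0 : ℂ) 1, ζ ^ N ∈ ball (0 : ℂ) 1 := by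
    intro ζ hζ
    rw [mem_ball_zero_iff] at hζ ⊢
    rw [norm_pow]; exact pow_lt_one₀ (norm_nonneg _) hζ hN.ne'
  have hEd : DifferentiableOn ℂ E (ball 0 1) := by
    apply DifferentiableOn.mul
    · apply DifferentiableOn.cexp
      exact (Lc_diff σ).comp (differentiable_pow N).differentiableOn hpow
    · exact (hdd.div_const _).pow N
  have hnorm : ∀ ζ ∈ ball (0 : ℂ) 1, ‖E ζ‖ =
      Real.exp (Uc σ (ζ ^ N) - N * (Real.log c - Real.log ‖d ζ‖)) := by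
    intro ζ hζ
    rw [hE]
    simp only
    rw [norm_mul, Complex.norm_exp, Lc_re σ (mem_ball_zero_iff.1 (hpow ζ hζ)), norm_pow, norm_div,
      Complex.norm_real, Real.norm_eq_abs, abs_of_pos hc]
    have hdp : 0 < ‖d ζ‖ := norm_pos_iff.2 (hd ζ hζ)
    have h1 : (‖d ζ‖ / c) ^ N = Real.exp (-(N * (Real.log c - Real.log ‖d ζ‖))) := by
      rw [← Real.exp_log (div_pos hdp hc), ← Real.exp_nat_mul, Real.log_div hdp.ne' hc.ne']
      congr 1
      ring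
    rw [h1, ← Real.exp_add]
    congr 1
  have hE0 : ‖E 0‖ = 1 := by
    have h0 : (0 : ℂ) ∈ ball (0 : ℂ) 1 := mem_ball_self one_pos
    rw [hE]
    simp only
    rw [zero_pow hN.ne', Lc_zero, Complex.exp_zero, one_mul, hd0, div_self hc0, one_pow, norm_one]
  have hmax : IsMaxOn (norm ∘ E) (ball 0 1) 0 := by
    intro ζ hζ
    simp only [Function.comp_apply, mem_setOf_eq]
    rw [hE0, hnorm ζ hζ]
    rw [← Real.exp_zero]
    apply Real.exp_le_exp.2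
    linarith [hle ζ hζ]
  have heq := Complex.eqOn_of_isPreconnected_of_isMaxOn_norm
    (convex_ball (0 : ℂ) 1).isPreconnected isOpen_ball hEd (mem_ball_self one_pos) hmax
  intro ζ hζ
  have h1 : E ζ = E 0 := heq hζ
  have h2 := hnorm ζ hζ
  rw [h1, hE0] at h2
  have h3 := (Real.exp_eq_one_iff _).1 h2.symm
  linarith

end Pool.Agent.Helper83.Berg
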