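import Pool.Agent.Helper83.Berg.Area
import Pool.Agent.Helper83.Berg.Faber
import Pool.Graph.R_pool_sql_team_668148b0.H92Berg.Final

set_option autoImplicit false
open MeasureTheory Polynomial Set Metric Filter Topology
open Pool.Agent.H92Berg

namespace Pool.Agent.Helper83.Berg

/-- the closed regular `N`-gon -/
def KN (N : ℕ) : Set ℂ := convexHull ℝ {z : ℂ | z ^ N = 1}

theorem KN_out (N : ℕ) (hN : 0 < N) : KN N ⊆ closedBall 0 1 := by
  refine convexHull_min ?_ (convex_closedBall 0 1)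
  intro w hw
  have hw' : w ^ N = 1 := hw
  rw [mem_closedBall_zero_iff]
  have h2 : ‖w‖ ^ N = 1 := by rw [← norm_pow, hw', norm_one]
  exact ((pow_eq_one_iff_of_nonneg (norm_nonneg w) (by omega)).1 h2).le

theorem KN3_inn : ball (0 : ℂ) (1 / 4) ⊆ KN 3 := by
  intro z hz
  rw [mem_ball_zero_iff] at hz
  set s : ℝ := √3 with hs
  have hs2 : s * s = 3 := Real.mul_self_sqrt (by norm_num)
  have hs1 : (1 : ℝ) < s := by
    rw [hs]; exact Real.lt_sqrt_of_sq_lt (by norm_num)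
  have hre := (Complex.abs_re_le_norm z).trans hz.le
  have him := (Complex.abs_im_le_norm z).trans hz.le
  rw [abs_le] at hre him
  have hsi : 1 / s ≤ 1 := by
    rw [div_le_one (by linarith)]; exact hs1.le
  have hsp : 0 < 1 / s := by positivity
  have hy1 : z.im * (1 / s) ≤ 1 / 4 := by nlinarith
  have hy2 : -(1 / 4) ≤ z.im * (1 / s) := by nlinarith
  have h1 : (⟨-1 / 2, s / 2⟩ : ℂ) ^ 3 = 1 := by
    apply Complex.ext
    · rw [pow_succ, sq]
      simp only [Complex.mul_re, Complex.mul_im, Complex.one_re]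
      nlinarith
    · rw [pow_succ, sq]
      simp only [Complex.mul_re, Complex.mul_im, Complex.one_im]
      have : s * s * s = 3 * s := by rw [hs2]
      nlinarith
  have h2 : (⟨-1 / 2, -s / 2⟩ : ℂ) ^ 3 = 1 := by
    apply Complex.ext
    · rw [pow_succ, sq]
      simp only [Complex.mul_re, Complex.mul_im, Complex.one_re]
      nlinarith
    · rw [pow_succ, sq]
      simp only [Complex.mul_re, Complex.mul_im, Complex.one_im]
      have : s * s * s = 3 * s := by rw [hs2]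
      nlinarith
  have hmem : ∀ w : ℂ, w ^ 3 = 1 → w ∈ KN 3 := fun w hw => subset_convexHull ℝ _ hw
  have hz' : z = ∑ i : Fin 3, (![1 / 3 + 2 / 3 * z.re, 1 / 3 - z.re / 3 + z.im * (1 / s),
      1 / 3 - z.re / 3 - z.im * (1 / s)] i : ℝ) •
      (![1, ⟨-1 / 2, s / 2⟩, ⟨-1 / 2, -s / 2⟩] i : ℂ) := by
    rw [Fin.sum_univ_three]
    simp only [Matrix.cons_val_zero, Matrix.cons_val_one, Matrix.cons_val]
    apply Complex.ext
    · simp
      ring
    · simp
      field_simp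
      ring
  rw [hz']
  apply (convex_convexHull ℝ _).sum_mem
  · intro i _
    fin_cases i
    · simp; linarith
    · simp; simp at hy2 hy1; linarith
    · simp; simp at hy2 hy1; linarith
  · rw [Fin.sum_univ_three]
    simp
    ring
  · intro i _
    fin_cases i
    · exact hmem _ (by simp)
    · exact hmem _ h1
    · exact hmem _ h2

theorem KN4_inn : ball (0 : ℂ) (1 / 4) ⊆ KN 4 := by
  intro z hz
  rw [mem_ball_zero_iff] at hz
  have hre := (Complex.abs_re_le_norm z).trans hz.le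
  have him := (Complex.abs_im_le_norm z).trans hz.le
  rw [abs_le] at hre him
  have hmem : ∀ w : ℂ, w ^ 4 = 1 → w ∈ KN 4 := fun w hw => subset_convexHull ℝ _ hw
  have hz' : z = ∑ i : Fin 4, (![1 / 4 + z.re / 2, 1 / 4 - z.re / 2, 1 / 4 + z.im / 2,
      1 / 4 - z.im / 2] i : ℝ) • (![1, -1, Complex.I, -Complex.I] i : ℂ) := by
    rw [Fin.sum_univ_four]
    simp only [Matrix.cons_val_zero, Matrix.cons_val_one, Matrix.cons_val]
    apply Complex.ext
    · simp
      ring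
    · simp
      ring
  rw [hz']
  apply (convex_convexHull ℝ _).sum_mem
  · intro i _
    fin_cases i
    · simp; linarith
    · simp; linarith
    · simp; linarith
    · simp; linarith
  · rw [Fin.sum_univ_four]
    simp
    ring
  · intro i _
    fin_cases i
    · exact hmem _ (by simp)
    · exact hmem _ (by norm_num)
    · exact hmem _ (by norm_num)
    · exact hmem _ (by norm_num)

theorem body (N : ℕ) (hN : N = 3 ∨ N = 4) : Body (KN N) (1 / 4) := by
  rcases hN with rfl | rfl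
  · exact ⟨hull_compact 3 (by norm_num), convex_convexHull ℝ _, by norm_num, KN3_inn,
      KN_out 3 (by norm_num)⟩
  · exact ⟨hull_compact 4 (by norm_num), convex_convexHull ℝ _, by norm_num, KN4_inn,
      KN_out 4 (by norm_num)⟩

variable {N : ℕ}

theorem int_sq (p : ℕ → ℂ[X]) (hp : IsBergmanOP N p) (m : ℕ) :
    ∫ z in G N, ‖(p m).eval z‖ ^ 2 = 1 := by
  have h1 := hp.orthonormal m m
  rw [if_pos rfl, bergman_self] at h1
  exact_mod_cast h1

/-- extremality of the orthonormal polynomials -/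
theorem kappa_le (hN : 0 < N) (p : ℕ → ℂ[X]) (hp : IsBergmanOP N p) (m : ℕ) (κ : ℝ) (hκ : 0 < κ)
    (hlc : (p m).leadingCoeff = κ) (Q : ℂ[X]) (hQ : Q.Monic) (hQd : Q.natDegree = m) (B : ℝ)
    (hB : ∀ z ∈ KN N, ‖Q.eval z‖ ≤ B) : κ⁻¹ ≤ B * ((1 + volume.real (G N)) / 2) := by
  have hκ0 : (κ : ℂ) ≠ 0 := Complex.ofReal_ne_zero.2 hκ.ne'
  have hdeg : (Q - C ((κ : ℂ)⁻¹) * p m).degree < m := by
    rw [degree_lt_iff_coeff_zero]
    intro n hn
    rw [coeff_sub, coeff_C_mul]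
    rcases Nat.eq_or_lt_of_le hn with h | h
    · subst h
      have h1 : (p m).coeff m = κ := by
        rw [← hlc, leadingCoeff, hp.natDegree_eq]
      have h2 : Q.coeff m = 1 := by
        have := hQ.coeff_natDegree
        rwa [hQd] at this
      rw [h1, h2, inv_mul_cancel₀ hκ0, sub_self]
    · rw [coeff_eq_zero_of_natDegree_lt (show Q.natDegree < n by rw [hQd]; exact h),
        coeff_eq_zero_of_natDegree_lt (show (p m).natDegree < n by rw [hp.natDegree_eq]; exact h)]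
      simp
  have h1 := OP_orth hN p hp m m le_rfl _ hdeg
  have h2 : bergman N (p m) Q = ((κ⁻¹ : ℝ) : ℂ) := by
    have h3 : Q = (Q - C ((κ : ℂ)⁻¹) * p m) + C ((κ : ℂ)⁻¹) * p m := by ring
    rw [h3, bergman_add_right hN, h1, bergman_smul_right, hp.orthonormal, if_pos rfl,
      ← Complex.ofReal_inv, Complex.conj_ofReal]
    simp
  have hB0 : 0 ≤ B := by
    have h3 : (1 : ℂ) ∈ KN N := subset_convexHull ℝ _ (by simp)
    exact (norm_nonneg _).trans (hB 1 h3)
  have hfin : volume (G N) ≠ ⊤ := by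
    have := (hull_compact N hN).measure_lt_top (μ := (volume : Measure ℂ))
    exact (lt_of_le_of_lt (measure_mono interior_subset) this).ne
  have hc1 : Continuous (fun z : ℂ => ‖(p m).eval z‖ ^ 2) := (p m).continuous.norm.pow 2
  have hi1 : IntegrableOn (fun z : ℂ => ‖(p m).eval z‖ ^ 2) (G N) volume :=
    (hc1.continuousOn.integrableOn_compact (hull_compact N hN)).mono_set interior_subset
  have hi2 : IntegrableOn (fun _ : ℂ => (1 : ℝ)) (G N) volume := integrableOn_const hfin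
  have h4 : ‖bergman N (p m) Q‖ ≤ ∫ z in G N, B * ((‖(p m).eval z‖ ^ 2 + 1) / 2) := by
    unfold bergman
    refine (norm_integral_le_integral_norm _).trans ?_
    apply setIntegral_mono_on
    · exact (bergman_int hN (p m) Q).norm
    · exact ((hi1.add hi2).div_const 2).const_mul B
    · exact isOpen_interior.measurableSet
    · intro z hz
      rw [norm_mul, RCLike.norm_conj]
      have h5 : ‖Q.eval z‖ ≤ B := hB z (interior_subset hz)
      have h6 : ‖(p m).eval z‖ ≤ (‖(p m).eval z‖ ^ 2 + 1) / 2 := by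
        nlinarith [sq_nonneg (‖(p m).eval z‖ - 1)]
      calc ‖(p m).eval z‖ * ‖Q.eval z‖ ≤ ((‖(p m).eval z‖ ^ 2 + 1) / 2) * B := by gcongr
        _ = _ := by ring
  rw [h2, Complex.norm_real, Real.norm_eq_abs, abs_of_pos (inv_pos.2 hκ)] at h4
  refine h4.trans (le_of_eq ?_)
  rw [integral_const_mul, integral_div, integral_add hi1 hi2, int_sq p hp]
  simp

/-- the sup of `|p_m|` on `r K` -/
theorem sup_rK (hN : N = 3 ∨ N = 4) (p : ℕ → ℂ[X]) (hp : IsBergmanOP N p) (r : ℝ) (hr0 : 0 < r)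
    (hr1 : r < 1) (m : ℕ) (z : ℂ) (hz : z ∈ KN N) :
    ‖(p m).eval (r * z)‖ ≤ √((Real.pi * ((1 - r) * (1 / 4)) ^ 2)⁻¹) := by
  have hb := body N hN
  have hN0 : 0 < N := by omega
  set δ : ℝ := (1 - r) * (1 / 4) with hδ
  have hδ0 : 0 < δ := by
    have : 0 < 1 - r := by linarith
    positivity
  have hsub : ball (r * z : ℂ) δ ⊆ KN N := by
    intro y hy
    rw [mem_ball, dist_eq_norm] at hy
    have h1r : (0 : ℝ) < 1 - r := by linarith
    have h1rc : ((1 - r : ℝ) : ℂ) ≠ 0 := Complex.ofReal_ne_zero.2 h1r.ne'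
    have hu : ((1 - r : ℝ) : ℂ)⁻¹ * (y - r * z) ∈ KN N := by
      apply hb.inn
      rw [mem_ball_zero_iff, norm_mul, norm_inv, Complex.norm_real, Real.norm_eq_abs,
        abs_of_pos h1r, inv_mul_lt_iff₀ h1r]
      exact hy
    have hy2 : y = r • z + (1 - r) • (((1 - r : ℝ) : ℂ)⁻¹ * (y - r * z)) := by
      rw [Complex.real_smul, Complex.real_smul, mul_inv_cancel_left₀ h1rc]
      ring
    rw [hy2]
    exact hb.conv hz hu hr0.le h1r.le (by ring)
  have hsub2 : ball (r * z : ℂ) δ ⊆ G N := by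
    unfold G
    exact interior_maximal hsub isOpen_ball
  have hc1 : Continuous (fun z : ℂ => ‖(p m).eval z‖ ^ 2) := (p m).continuous.norm.pow 2
  have hi1 : IntegrableOn (fun z : ℂ => ‖(p m).eval z‖ ^ 2) (G N) volume :=
    (hc1.continuousOn.integrableOn_compact (hull_compact N hN0)).mono_set interior_subset
  have h1 := sq_le (p m) (r * z) δ hδ0 (G N) hsub2 hi1
  rw [int_sq p hp] at h1
  apply Real.le_sqrt_of_sq_le
  have hpos : 0 < Real.pi * δ ^ 2 := mul_pos Real.pi_pos (by positivity)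
  rw [← one_div, le_div_iff₀ hpos]
  exact h1

theorem OP_at (p : ℕ → ℂ[X]) (hp : IsBergmanOP N p) (k : ℕ) (q : ℕ → ℝ[X]) (t : ℕ → ℕ → ℝ)
    (hq : ∀ j, p (j * N + k) = X ^ k * ((q j).map (algebraMap ℝ ℂ)).comp (X ^ N) ∧
        (q j).natDegree = j ∧ (q j).roots = (Multiset.range j).map (t j)) (hN : 0 < N) (j : ℕ) :
    ∃ κ : ℝ, 0 < κ ∧ (p (j * N + k)).leadingCoeff = κ ∧
      ∀ z : ℂ, (p (j * N + k)).eval z = κ * z ^ k * ∏ ν ∈ Finset.range j, (z ^ N - (t j ν : ℂ)) := by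
  obtain ⟨h1, h2, h3⟩ := hq j
  obtain ⟨κ, hκ, hκl⟩ := hp.leading_pos (j * N + k)
  refine ⟨κ, hκ, hκl, ?_⟩
  have hcard : Multiset.card (q j).roots = (q j).natDegree := by
    rw [h3, h2]; simp
  have h4 := C_leadingCoeff_mul_prod_multiset_X_sub_C hcard
  rw [h3] at h4
  have h5 : (Multiset.map (fun a => X - C a) (Multiset.map (t j) (Multiset.range j))).prod =
      ∏ ν ∈ Finset.range j, (X - C (t j ν)) := by
    rw [Multiset.map_map]
    rfl
  rw [h5] at h4
  have hlc : (q j).leadingCoeff = κ := by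
    have h6 : (p (j * N + k)).leadingCoeff = ((q j).leadingCoeff : ℂ) := by
      rw [h1, leadingCoeff_mul, leadingCoeff_X_pow, one_mul, leadingCoeff_comp]
      · rw [leadingCoeff_X_pow, one_pow, mul_one, leadingCoeff_map]
        rfl
      · rw [natDegree_X_pow]; omega
    rw [hκl] at h6
    exact (Complex.ofReal_injective h6).symm
  intro z
  rw [h1, eval_mul, eval_pow, eval_X, eval_comp, eval_pow, eval_X, ← h4, hlc]
  rw [Polynomial.map_mul, map_C, eval_mul, eval_C, Polynomial.map_prod, eval_prod]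
  simp only [Polynomial.map_sub, map_X, map_C, eval_sub, eval_X, eval_C, Complex.coe_algebraMap]
  ring

/-- the main bound outside the polygon -/
theorem prod_bound (hN : N = 3 ∨ N = 4) {ψ F : ℂ → ℂ} {c : ℝ} (hc : 0 < c)
    (hψ : DifferentiableOn ℂ ψ (UK (KN N))) (hψ1 : ∀ ζ ∈ UK (KN N), ‖ψ ζ‖ < 1) (hψ0 : ψ 0 = 0)
    (hF : DifferentiableOn ℂ F (ball 0 1)) (hFm : ∀ w ∈ ball (0 : ℂ) 1, F w ∈ UK (KN N))
    (hF0 : F 0 = 0) (hFd : deriv F 0 = (c : ℂ)⁻¹)
    (p : ℕ → ℂ[X]) (hp : IsBergmanOP N p) (k : ℕ) (q : ℕ → ℝ[X]) (t : ℕ → ℕ → ℝ)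
    (hq : ∀ j, p (j * N + k) = X ^ k * ((q j).map (algebraMap ℝ ℂ)).comp (X ^ N) ∧
        (q j).natDegree = j ∧ (q j).roots = (Multiset.range j).map (t j))
    (r : ℝ) (hr0 : 0 < r) (hr1 : r < 1) (ρ : ℝ) (hρ0 : 0 < ρ) (hρ1 : ρ < 1) :
    ∃ A : ℝ, 0 < A ∧ ∀ j : ℕ, ∀ ζ ∈ ball (0 : ℂ) 1,
      (∏ ν ∈ Finset.range j, ‖1 - (t j ν : ℂ) * ζ ^ N‖) *
        (r * ‖dslope ψ 0 (r * ζ)‖) ^ (j * N + k) ≤ A * (c * ρ⁻¹) ^ (j * N + k) := by
  have hb := body N hN
  have hN0 : 0 < N := by omega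
  have hcn : ‖deriv F 0‖⁻¹ = c := by
    rw [hFd, norm_inv, Complex.norm_real, Real.norm_eq_abs, abs_of_pos hc, inv_inv]
  obtain ⟨B, hB0, hB⟩ := faber hb hF hFm hF0 (by
    rw [hFd]; exact inv_ne_zero (Complex.ofReal_ne_zero.2 hc.ne')) ρ hρ0 hρ1
  set S : ℝ := √((Real.pi * ((1 - r) * (1 / 4)) ^ 2)⁻¹) with hS
  set V : ℝ := (1 + volume.real (G N)) / 2 with hV
  have hV0 : 0 < V := by
    have : 0 ≤ volume.real (G N) := measureReal_nonneg
    positivity
  refine ⟨(S + 1) * (B * V), by positivity, fun j ζ hζ => ?_⟩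
  obtain ⟨κ, hκ, hκl, hev⟩ := OP_at p hp k q t hq hN0 j
  set m := j * N + k with hm
  obtain ⟨Q, hQ1, hQ2, hQ3⟩ := hB m
  rw [hcn] at hQ3
  have hκle := kappa_le hN0 p hp m κ hκ hκl Q hQ1 hQ2 _ hQ3
  -- the reversed polynomial
  set R : ℂ → ℂ := fun x => κ * r ^ k * ∏ ν ∈ Finset.range j, ((r : ℂ) ^ N - (t j ν : ℂ) * x ^ N)
    with hR
  have hRd : Differentiable ℂ R := by
    rw [hR]
    apply Differentiable.const_mul
    apply Differentiable.fun_finsetProd
    intro i _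
    fun_prop
  have hRP : ∀ x : ℂ, x ≠ 0 → R x = x ^ m * ((p m).comp (C (r : ℂ) * X)).eval x⁻¹ := by
    intro x hx
    rw [eval_comp, eval_mul, eval_C, eval_X, hev, hR, hm]
    simp only
    have h1 : ∏ ν ∈ Finset.range j, ((r : ℂ) ^ N - (t j ν : ℂ) * x ^ N) =
        (x ^ N) ^ j * ∏ ν ∈ Finset.range j, (((r : ℂ) * x⁻¹) ^ N - (t j ν : ℂ)) := by
      rw [← Finset.card_range j, ← Finset.prod_const, Finset.card_range, ← Finset.prod_mul_distrib]
      apply Finset.prod_congr rfl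
      intro ν _
      rw [mul_pow, inv_pow]
      field_simp
    rw [h1]
    generalize (∏ ν ∈ Finset.range j, (((r : ℂ) * x⁻¹) ^ N - (t j ν : ℂ))) = Y
    rw [pow_add, mul_comm j N, pow_mul, mul_pow (r : ℂ) x⁻¹ k, inv_pow]
    have hxk : x ^ k ≠ 0 := pow_ne_zero _ hx
    field_simp
  have hM : ∀ z ∈ KN N, ‖((p m).comp (C (r : ℂ) * X)).eval z‖ ≤ S := by
    intro z hz
    rw [eval_comp, eval_mul, eval_C, eval_X]
    exact sup_rK hN p hp r hr0 hr1 m z hz
  have hrζ : (r : ℂ) * ζ ∈ UK (KN N) := by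
    apply ball_sub_UK hb
    rw [mem_ball_zero_iff] at hζ ⊢
    rw [norm_mul, Complex.norm_real, Real.norm_eq_abs, abs_of_pos hr0]
    nlinarith [norm_nonneg ζ]
  have hbw := bw hb hψ hψ1 hψ0 _ m R hRd hRP S hM _ hrζ
  have hRe : R (r * ζ) = κ * r ^ m * ∏ ν ∈ Finset.range j, (1 - (t j ν : ℂ) * ζ ^ N) := by
    rw [hR, hm]
    simp only
    have h1 : ∏ ν ∈ Finset.range j, ((r : ℂ) ^ N - (t j ν : ℂ) * (r * ζ) ^ N) =
        ((r : ℂ) ^ N) ^ j * ∏ ν ∈ Finset.range j, (1 - (t j ν : ℂ) * ζ ^ N) := by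
      rw [← Finset.card_range j, ← Finset.prod_const, Finset.card_range, ← Finset.prod_mul_distrib]
      apply Finset.prod_congr rfl
      intro ν _
      rw [mul_pow]
      ring
    rw [h1, pow_add, mul_comm j N, pow_mul]
    ring
  rw [hRe, norm_mul, norm_mul, norm_mul, norm_pow, norm_pow, Complex.norm_real, Complex.norm_real,
    Real.norm_eq_abs, Real.norm_eq_abs, abs_of_pos hκ, abs_of_pos hr0, norm_prod] at hbw
  have hV1 : 0 < B * (c * ρ⁻¹) ^ m * V := by positivity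
  calc (∏ ν ∈ Finset.range j, ‖1 - (t j ν : ℂ) * ζ ^ N‖) * (r * ‖dslope ψ 0 (r * ζ)‖) ^ m
      = κ⁻¹ * (κ * r ^ m * (∏ ν ∈ Finset.range j, ‖1 - (t j ν : ℂ) * ζ ^ N‖) *
          ‖dslope ψ 0 (r * ζ)‖ ^ m) := by
        rw [mul_pow]
        generalize (∏ ν ∈ Finset.range j, ‖1 - (t j ν : ℂ) * ζ ^ N‖) = Y
        field_simp
    _ ≤ κ⁻¹ * S := by
        gcongr
    _ ≤ (B * (c * ρ⁻¹) ^ m * V) * S := by
        gcongr
    _ ≤ (B * (c * ρ⁻¹) ^ m * V) * (S + 1) := by
        gcongr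
        linarith
    _ = (S + 1) * (B * V) * (c * ρ⁻¹) ^ m := by ring

end Pool.Agent.Helper83.Berg
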