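import Pool.Agent.Helper83.Berg.Fin

/-!
# MP_b1555f_an, Q2: weak-* convergence of the root-counting measures

For `N = 3, 4` let `p_m` be the Bergman orthonormal polynomials of the regular `N`-gon and
`p_{jN+k}(z) = z^k q_{j,k}(z^N)`.  For every `k < N` the normalised root-counting measures of
`q_{j,k}` converge weak-* to the measure `μ_N` of the problem, as `j → ∞`.  The objects in the
question exist: the polynomials, the conformal map `φ_N` of the exterior of the closed polygon and
the measure `μ_N`, which is the only probability measure on `[0,1]` with the prescribed potential.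

The zeros lie in `(0,1)` by the (library) answer to Q1.  New here: the `m`-th root asymptotics
of the `p_m` outside the polygon (a Bernstein-Walsh inequality on the exterior domain, monic
Faber-type polynomials built from the inverse of the exterior map, the extremal property of the
`p_m`, and a sub-mean-value bound of the sup norm on a smaller polygon by the `L^2` norm), the
strong maximum principle, which makes the potential of every limit point of the root-counting
measures equal to the Green potential, and the determination of a measure on `[0,1]` by its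
potential for `|z| > 1`.
-/

set_option autoImplicit false
open MeasureTheory Polynomial Filter Topology

namespace Pool.Agent.Helper83.Berg.RootMeasuresConverge

/-- The open regular `N`-gon whose vertices are the `N`-th roots of unity. -/
def Ngon (N : ℕ) : Set ℂ := interior (convexHull ℝ {z : ℂ | z ^ N = 1})

/-- The Bergman inner product of two polynomials over the open `N`-gon
(integration with respect to planar Lebesgue measure). -/
noncomputable def bergmanInner (N : ℕ) (p q : ℂ[X]) : ℂ :=
  ∫ z in Ngon N, p.eval z * starRingEnd ℂ (q.eval z)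

/-- `p` is the Gram-Schmidt sequence of `1, z, z^2, ...` for the Bergman inner product of the
`N`-gon: `deg p_m = m`, the leading coefficients are positive reals, and the `p_m` are
orthonormal. -/
structure IsBergmanOP (N : ℕ) (p : ℕ → ℂ[X]) : Prop where
  natDegree_eq : ∀ m, (p m).natDegree = m
  leading_pos : ∀ m, ∃ c : ℝ, 0 < c ∧ (p m).leadingCoeff = c
  orthonormal : ∀ m n, bergmanInner N (p m) (p n) = if m = n then 1 else 0

/-- `φ` is the conformal map of the exterior of the closed `N`-gon onto `|w| > 1` with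
`φ(∞) = ∞` and `φ'(∞) = 1 / c > 0`, so that `c` is the logarithmic capacity of the `N`-gon. -/
structure IsExteriorMap (N : ℕ) (φ : ℂ → ℂ) (c : ℝ) : Prop where
  holo : DifferentiableOn ℂ φ (closure (Ngon N))ᶜ
  bij : Set.BijOn φ (closure (Ngon N))ᶜ {w | 1 < ‖w‖}
  pos : 0 < c
  at_infty : Tendsto (fun z => φ z / z) (Bornology.cobounded ℂ) (𝓝 ((c : ℂ)⁻¹))

/-- The defining property of `μ_N`: a probability measure on `[0,1]` with
`∫ log |z^N - x| dμ(x) = N log |φ(z)| + N log c` for all `|z| > 1`. -/
def IsMuN (N : ℕ) (φ : ℂ → ℂ) (c : ℝ) (μ : ProbabilityMeasure (Set.Icc (0 : ℝ) 1)) : Prop :=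
  ∀ z : ℂ, 1 < ‖z‖ →
    ∫ x : Set.Icc (0 : ℝ) 1, Real.log ‖z ^ N - ((x : ℝ) : ℂ)‖ ∂(μ : Measure (Set.Icc (0 : ℝ) 1)) =
      N * Real.log ‖φ z‖ + N * Real.log c

theorem isBergmanOP_iff (N : ℕ) (p : ℕ → ℂ[X]) :
    IsBergmanOP N p ↔ Pool.Agent.H92Berg.IsBergmanOP N p :=
  ⟨fun h => ⟨h.1, h.2, h.3⟩, fun h => ⟨h.1, h.2, h.3⟩⟩

theorem closure_Ngon (N : ℕ) (hN : N = 3 ∨ N = 4) :
    closure (Ngon N) = Pool.Agent.Helper83.Berg.KN N := by
  have hb := Pool.Agent.Helper83.Berg.body N hN
  have hne : (interior (convexHull ℝ {z : ℂ | z ^ N = 1})).Nonempty :=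
    ⟨0, interior_maximal hb.inn Metric.isOpen_ball (Metric.mem_ball_self hb.pos)⟩
  unfold Ngon
  rw [(convex_convexHull ℝ _).closure_interior_eq_closure_of_nonempty_interior hne]
  exact hb.comp.isClosed.closure_eq

theorem isExteriorMap_iff (N : ℕ) (hN : N = 3 ∨ N = 4) (φ : ℂ → ℂ) (c : ℝ) :
    IsExteriorMap N φ c ↔ Pool.Agent.Helper83.Berg.IsExt (Pool.Agent.Helper83.Berg.KN N) φ c := by
  rw [← closure_Ngon N hN]
  exact ⟨fun h => ⟨h.1, h.2, h.3, h.4⟩, fun h => ⟨h.1, h.2, h.3, h.4⟩⟩

/-- Question Q2 in full: the objects exist, and for every `k < N` the normalised root-counting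
measures of the `q_{j,k}` converge weak-* to `μ_N`. -/
theorem rootMeasures (N : ℕ) (hN : N = 3 ∨ N = 4) :
    (∃! p : ℕ → ℂ[X], IsBergmanOP N p) ∧
    (∃ (φ : ℂ → ℂ) (c : ℝ), IsExteriorMap N φ c) ∧
    ∀ (φ : ℂ → ℂ) (c : ℝ), IsExteriorMap N φ c →
      ∃ μ : ProbabilityMeasure (Set.Icc (0 : ℝ) 1),
        (∀ μ' : ProbabilityMeasure (Set.Icc (0 : ℝ) 1), IsMuN N φ c μ' ↔ μ' = μ) ∧
        ∀ p : ℕ → ℂ[X], IsBergmanOP N p → ∀ k < N, ∃ q : ℕ → ℝ[X],
          (∀ j, p (j * N + k) = X ^ k * ((q j).map (algebraMap ℝ ℂ)).comp (X ^ N) ∧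
            (q j).natDegree = j ∧ Multiset.card (q j).roots = j ∧
            ∀ x ∈ (q j).roots, 0 < x ∧ x < 1) ∧
          ∀ f : ℝ → ℝ, Continuous f →
            Tendsto (fun j : ℕ => ((q j).roots.map f).sum / (j : ℝ)) atTop
              (𝓝 (∫ x : Set.Icc (0 : ℝ) 1, f x ∂(μ : Measure (Set.Icc (0 : ℝ) 1)))) := by
  refine ⟨?_, ?_, ?_⟩
  · simp only [isBergmanOP_iff]
    exact (Pool.Agent.H92Berg.final N hN).1
  · simp only [isExteriorMap_iff N hN]
    exact Pool.Agent.Helper83.Berg.exists_isExt (Pool.Agent.Helper83.Berg.body N hN)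
  · intro φ c he
    rw [isExteriorMap_iff N hN] at he
    simp only [isBergmanOP_iff]
    exact Pool.Agent.Helper83.Berg.main N hN φ c he

end Pool.Agent.Helper83.Berg.RootMeasuresConverge
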